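import Mathlib
import Pool.Agent.X99.C49.Fin2

/-!
# The formula of Birch and Swinnerton-Dyer modulo two for the twists of `X_0(49)` by all the odd
# squarefree sums of two squares, and the exact proportion of the odd cases

`E_D` is the quadratic twist by `D` of `X_0(49) : y² + x y = x³ - x² - 2 x - 1` over `ℚ`, where `D`
runs through ALL the odd squarefree positive integers which are sums of two squares (all the prime
factors of `D` are `1` modulo `4`, and there is no condition on their splitting in the field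
`ℚ(√-7)` of complex multiplication). Let

`z(D) = L(E_D, 1) #E_D(ℚ)_tors² / (Ω(E_D) ∏ c_p)`,

which is zero or the order of `Ш(E_D)` according to the conjecture. For every `D` of the family,
with no hypothesis on the rank or on `Ш`: `L(E_D, s)` is entire; the equation used is minimal at all
primes; `#E_D(ℚ)_tors` is twice an odd number; `∏ c_p = 2^{1 + a + 2 b}`, where `D` has `a` prime
factors that are inert and `b` prime factors that split in `ℚ(√-7)`; `z(D)` is integral at the primes
above two, and it is a unit at one of them if and only if it is so at all of them, if and only if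
`E_D(ℚ)` is finite and `Ш(E_D)[2] = 0`. In this case `L(E_D, 1) ≠ 0`, the rank is zero,
`Ш(E_D)[2^∞] = 0`, so the 2-part of the strong conjecture holds for `E_D`.

This case happens for exactly the proportion `∏_{i ≥ 0} (1 - 2^{-(2i+1)}) = 0.4194...` of the `D` of
the family. In the remaining proportion `0.5805...` both sides of the formula are even: `z(D)` is
divisible by a prime above two, and `E_D(ℚ)` is infinite or `#Ш(E_D)` is even (or infinite).

Proof. The values and the descent are those of the teams of `Pool/Agent/Y698` (twists of `X_0(49)` over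
the subfields of degree `2^n ≥ 2` of cyclotomic fields), carried over to `ℚ` in
`Pool/Agent/X99/C49`. The exact proportion is from `Pool/Agent/X99/GQ`: matrices of quadratic residue
symbols with rows indexed by the prime factors of `D` in arbitrary classes modulo an arbitrary `N`.
-/

set_option autoImplicit false

open Finset NumberField IsDedekindDomain WeierstrassCurve MeasureTheory

namespace Pool.Agent.Results.MP_4a9ea6_nt.FormulaModTwoSumsOfTwoSquares

open Pool.Agent.TH841.SH.D (Sha)
open Pool.Agent.TH841.SH.D (Pt)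

/-- For `D ≡ 1 mod 4` the quadratic twist by `D` of the elliptic curve
`X_0(49) : y² + x y = x³ - x² - 2 x - 1`:
the curve `y² + x y = x³ - (3 D + 1) / 4 x² - 2 D² x - D³`. -/
def twist (D : ℕ) : WeierstrassCurve ℤ := ⟨1, -((3 * D + 1) / 4), 0, -2 * D ^ 2, -D ^ 3⟩

/-- The curve given by the equation of `W` over `ℚ`. -/
abbrev base (W : WeierstrassCurve ℤ) : WeierstrassCurve ℚ := W.map (Int.castRingHom ℚ)

/-- The equation is minimal at the prime `v`: no change of variables over `ℚ` that keeps the
coefficients integral at `v` decreases the order of the discriminant. -/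
def MinimalAt (W : WeierstrassCurve ℚ) (v : HeightOneSpectrum (𝓞 ℚ)) : Prop :=
  ∀ C : VariableChange ℚ, v.valuation ℚ (C • W).a₁ ≤ 1 → v.valuation ℚ (C • W).a₂ ≤ 1 →
    v.valuation ℚ (C • W).a₃ ≤ 1 → v.valuation ℚ (C • W).a₄ ≤ 1 → v.valuation ℚ (C • W).a₆ ≤ 1 →
    v.valuation ℚ (C • W).Δ ≤ v.valuation ℚ W.Δ

/-- `W⁰(ℚ_v)`, the group of the points of `W` over the completion `ℚ_v` with nonsingular reduction:
the point at infinity and the points `(x, y)` where `x` is not integral, or one of the partial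
derivatives of `y² + a₁ x y + a₃ y - x³ - a₂ x² - a₄ x - a₆` is a unit at `(x, y)`.
Here `Pt W ℚ_v` is the group of the points of `W` over `ℚ_v`. -/
noncomputable def nonsing (W : WeierstrassCurve ℚ) (v : HeightOneSpectrum (𝓞 ℚ)) :
    AddSubgroup (Pt W (v.adicCompletion ℚ)) :=
  AddSubgroup.closure {P | ∀ x y h, P = Affine.Point.some x y h →
    1 < Valued.v x ∨
    Valued.v ((W.baseChange (v.adicCompletion ℚ)).a₁ * y -
      (3 * x ^ 2 + 2 * (W.baseChange (v.adicCompletion ℚ)).a₂ * x +
        (W.baseChange (v.adicCompletion ℚ)).a₄)) = 1 ∨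
    Valued.v (2 * y + (W.baseChange (v.adicCompletion ℚ)).a₁ * x +
      (W.baseChange (v.adicCompletion ℚ)).a₃) = 1}

/-- The Tamagawa number `c_v = [W(ℚ_v) : W⁰(ℚ_v)]` of a minimal equation. -/
noncomputable def c (W : WeierstrassCurve ℚ) (v : HeightOneSpectrum (𝓞 ℚ)) : ℕ :=
  (nonsing W v).index

/-- The product of the Tamagawa numbers. -/
noncomputable def Tam (W : WeierstrassCurve ℚ) : ℕ := ∏ᶠ v : HeightOneSpectrum (𝓞 ℚ), c W v

/-- The 2-primary part of the Tate-Shafarevich group. -/
def Sha2 (W : WeierstrassCurve ℚ) : Set (Sha W) := {x | ∃ n : ℕ, 2 ^ n • x = 0}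

/-- `4 x³ + b₂ x² + 2 b₄ x + b₆ = (2 y + a₁ x + a₃)²`. -/
def cubic (W : WeierstrassCurve ℤ) (x : ℝ) : ℝ :=
  4 * x ^ 3 + W.b₂ * x ^ 2 + 2 * W.b₄ * x + W.b₆

/-- `Ω = ∫_{W(ℝ)} |ω|` with `ω = dx / (2 y + a₁ x + a₃)`, as an integral over `x`: two real points lie
over each `x` with `cubic x > 0`. -/
noncomputable def Omega (W : WeierstrassCurve ℤ) : ℝ :=
  2 * ∫ x in {x : ℝ | 0 < cubic W x}, 1 / √(cubic W x)

open Classical in
/-- The order of the torsion subgroup of `W(ℚ)`. -/
noncomputable def torsOrder (W : WeierstrassCurve ℤ) : ℕ :=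
  Nat.card (AddCommGroup.torsion (base W).toAffine.Point)

/-- The order of the Tate-Shafarevich group predicted by the formula (in the case of rank zero), for a
curve with an equation that is minimal at all primes and the value `l` of its L-function at `s = 1`:
`l #W(ℚ)_tors² / (Ω ∏ c_p)`. -/
noncomputable def anOrder (W : WeierstrassCurve ℤ) (l : ℂ) : ℂ :=
  l * (torsOrder W : ℂ) ^ 2 / ((Omega W : ℝ) * (Tam (base W) : ℂ))

/-- the family: all the odd squarefree sums of two squares -/
def Family (D : ℕ) : Prop := Squarefree D ∧ Odd D ∧ ∃ x y : ℕ, D = x ^ 2 + y ^ 2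

/-- `E_D(ℚ)` is finite and `Ш(E_D)` has no element of order two -/
def FiniteShaTwo (D : ℕ) : Prop :=
  Finite (base (twist D)).toAffine.Point ∧ ∀ x : Sha (base (twist D)), x + x = 0 → x = 0

open Classical in
/-- the number of the prime factors of `D` that are inert in `ℚ(√-7)` -/
noncomputable def inert (D : ℕ) : ℕ :=
  (D.primeFactors.filter fun p => ¬ IsSquare (-7 : ZMod p)).card

open Classical in
/-- the number of the prime factors of `D` that split in `ℚ(√-7)` -/
noncomputable def split (D : ℕ) : ℕ :=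
  (D.primeFactors.filter fun p => IsSquare (-7 : ZMod p)).card

open Classical in
/-- the number of the `D ≤ X` of the family -/
noncomputable def total (X : ℕ) : ℕ := ((Icc 1 X).filter fun D => Family D).card

open Classical in
/-- the number of those with `E_D(ℚ)` finite and `Ш(E_D)[2] = 0` -/
noncomputable def good (X : ℕ) : ℕ := ((Icc 1 X).filter fun D => Family D ∧ FiniteShaTwo D).card

section proof

open Pool.Agent.Y698

lemma base_eq {D j : ℕ} (hj : D = 1 + 4 * j) : base (twist D) = AX ℚ j :=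
  twZ_map hj ℚ

lemma cubic_eq {D j : ℕ} (hj : D = 1 + 4 * j) (x : ℝ) :
    cubic (twist D) x = psD (1 + 4 * j) x := by
  have h1 : (3 * (D : ℤ) + 1) / 4 = 1 + 3 * j := by
    rw [hj]
    push_cast
    omega
  unfold cubic twist WeierstrassCurve.b₂ WeierstrassCurve.b₄ WeierstrassCurve.b₆ psD
  simp only
  rw [h1, hj]
  push_cast
  ring

lemma real_eq {D j : ℕ} (hj : D = 1 + 4 * j) : Omega (twist D) =
    ∫ x in {x : ℝ | 0 < psD (1 + 4 * j) x}, 2 / Real.sqrt (psD (1 + 4 * j) x) := by
  unfold Omega
  simp only [cubic_eq hj]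
  rw [← integral_const_mul]
  congr 1
  funext x
  ring

lemma tn_eq {D j : ℕ} (hj : D = 1 + 4 * j) :
    torsOrder (twist D) = Pool.Agent.Y698.SG.tnum (Pool.Agent.Y698.AX ℚ j) := by
  have key : ∀ (W : WeierstrassCurve ℚ) (i1 i2 : DecidableEq ℚ),
      Nat.card (@AddCommGroup.torsion W.toAffine.Point
        (@Affine.Point.instAddCommGroup ℚ _ W.toAffine i1)) =
      Nat.card (@AddCommGroup.torsion W.toAffine.Point
        (@Affine.Point.instAddCommGroup ℚ _ W.toAffine i2)) := by
    intro W i1 i2
    rw [Subsingleton.elim i1 i2]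
  unfold torsOrder Pool.Agent.Y698.SG.tnum
  rw [base_eq hj]
  exact key _ _ _

lemma an_eq {D j : ℕ} (hj : D = 1 + 4 * j) (l : ℂ) :
    anOrder (twist D) l = Pool.Agent.Y698.SG.quoT ℚ j l := by
  have h1 : InfinitePlace.nrRealPlaces ℚ = 1 :=
    InfinitePlace.nrRealPlaces_eq_one_of_finrank_eq_one (Module.finrank_self ℚ)
  have h2 : InfinitePlace.nrComplexPlaces ℚ = 0 := by
    have := InfinitePlace.card_add_two_mul_card_eq_rank ℚ
    rw [Module.finrank_self] at this
    omega
  have hd : NumberField.discr ℚ = 1 := Rat.numberField_discr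
  unfold anOrder
  rw [tn_eq hj, base_eq hj, real_eq hj]
  unfold Pool.Agent.Y698.SG.quoT
  have hT : Tam (Pool.Agent.Y698.AX ℚ j) = ∏ᶠ v, Pool.Agent.Y698.tam (Pool.Agent.Y698.AX ℚ j) v := rfl
  rw [hT, h1, h2, hd]
  generalize (∏ᶠ v, Pool.Agent.Y698.tam (Pool.Agent.Y698.AX ℚ j) v : ℕ) = t
  simp only [Int.cast_one, abs_one, Real.sqrt_one, Complex.ofReal_one, mul_one, pow_one, pow_zero]

end proof

open Pool.Agent.X99.C49 in
/-- **The formula modulo two for every `D` of the family, and the exact proportion of the cases where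
both sides are odd.** -/
theorem result :
    (∀ D : ℕ, Family D →
      (∀ v : HeightOneSpectrum (𝓞 ℚ), MinimalAt (base (twist D)) v) ∧
      (∃ t : ℕ, Odd t ∧ torsOrder (twist D) = 2 * t) ∧
      Tam (base (twist D)) = 2 ^ (1 + (inert D + 2 * split D)) ∧
      ∃ Λ : ℂ → ℂ, Differentiable ℂ Λ ∧
        (∀ s : ℂ, 2 < s.re → Λ s = (base (twist D)).LSeries s) ∧
        (∃ m : ℤ, Odd m ∧ _root_.IsIntegral ℤ ((m : ℂ) * anOrder (twist D) (Λ 1))) ∧
        (∀ (Γ : Type) [LinearOrderedCommGroupWithZero Γ] (v : Valuation ℂ Γ), v 2 < 1 →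
          v (anOrder (twist D) (Λ 1)) ≤ 1 ∧
          (v (anOrder (twist D) (Λ 1)) = 1 ↔ FiniteShaTwo D)) ∧
        (FiniteShaTwo D → Λ 1 ≠ 0 ∧
          (∃ m : ℤ, Odd m ∧ _root_.IsIntegral ℤ ((m : ℂ) * (anOrder (twist D) (Λ 1))⁻¹)) ∧
          Sha2 (base (twist D)) = {0})) ∧
    Filter.Tendsto (fun X : ℕ => (good X : ℝ) / (total X : ℝ))
      Filter.atTop (nhds (∏' i : ℕ, (1 - (1 / 2 : ℝ) ^ (2 * i + 1)))) := by
  classical
  have hW : ∀ D : ℕ, base (twist D) = Pool.Agent.Y700.EQ (W49 D) := fun D => rfl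
  have hcr : ∀ D : ℕ, Fam D → (FiniteShaTwo D ↔
      Pool.Agent.X99.GQ.Gd P28 n4 D.primeFactors) := fun D h => crit' h
  refine ⟨fun D hF => ?_, ?_⟩
  · have h := (fam_two D).1 hF
    obtain ⟨j, hj⟩ : ∃ j, D = 1 + 4 * j := ⟨D / 4, by have := fam4 h; omega⟩
    have hprod : ∏ q ∈ IP D ∪ SPr D, q = 1 + 4 * j := by
      rw [← hj]
      exact Mn_eq h
    obtain ⟨d1, d2, d3⟩ := data_Q (inq h) (spl h) hprod
    obtain ⟨Λ, h1, -, h3, h5⟩ := level_Q (inq h) (spl h) hprod
    have hgd := gd_iff h
    have hst := tn_eq hj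
    have hz : FiniteShaTwo D → ∀ (Γ : Type) [LinearOrderedCommGroupWithZero Γ] (v : Valuation ℂ Γ),
        v 2 < 1 → v (Pool.Agent.Y698.SG.quoT ℚ j (Λ 1)) = 1 := fun hC Γ _ v hv =>
      ((h5 Γ v hv).2).2 (hgd.1 ((hcr D h).1 hC))
    refine ⟨?_, hst ▸ d2, ?_, Λ, h1, ?_, ?_, ?_, ?_⟩
    · rw [base_eq hj]
      exact d1
    · rw [base_eq hj]
      exact d3
    · rw [base_eq hj]
      exact h3
    · rw [an_eq hj]
      exact Pool.Agent.Y698.int_of_val fun Γ _ v hv => (h5 Γ v hv).1
    · intro Γ _ v hv
      rw [an_eq hj, hcr D h, hgd]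
      exact h5 Γ v hv
    · intro hC
      refine ⟨?_, ?_, ?_⟩
      · intro h0
        refine Pool.Agent.Y698.SG.exists_val2 fun Γ _ v hv => ?_
        have h6 := hz hC Γ v hv
        rw [h0] at h6
        unfold Pool.Agent.Y698.SG.quoT at h6
        rw [zero_mul, zero_mul, zero_div, map_zero] at h6
        exact zero_ne_one h6
      · rw [an_eq hj]
        exact Pool.Agent.Y698.int_of_val fun Γ _ v hv => by rw [map_inv₀, hz hC Γ v hv, inv_one]
      · apply Set.eq_singleton_iff_unique_mem.2
        refine ⟨⟨0, smul_zero _⟩, ?_⟩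
        rintro x ⟨l, hl⟩
        exact sha2_zero h ((hcr D h).1 hC) l x hl
  · have hp := den28 n4
    unfold Pool.Agent.Y703.CQ.c2 at hp
    refine hp.congr fun X => congrArg₂ (fun a b : ℕ => (a : ℝ) / (b : ℝ)) ?_ ?_
    · refine congrArg Finset.card (Finset.ext fun D => ?_)
      refine (Finset.mem_filter).trans (Iff.trans ?_ (Finset.mem_filter).symm)
      refine and_congr_right fun _ => ?_
      rw [← and_assoc, fam_iff]
      exact (and_congr_right fun hF => (hcr D hF).symm).trans
        (and_congr (fam_two D).symm Iff.rfl)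
    · refine congrArg Finset.card (Finset.ext fun D => ?_)
      refine (Finset.mem_filter).trans (Iff.trans ?_ (Finset.mem_filter).symm)
      exact and_congr_right fun _ => (fam_iff D).trans (fam_two D).symm

end Pool.Agent.Results.MP_4a9ea6_nt.FormulaModTwoSumsOfTwoSquares
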