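import Pool.Agent.W263.BSD.Lead8
import Pool.Agent.W263.BSD.OrderFinal
import Pool.Agent.W189.ML.Curve
import Pool.Agent.TH941.Newform

/-!
# The leading term of `L(E, s)` and one-sided slow variation of the products of Birch and Swinnerton-Dyer

Let `E : y² = x³ + a x + b` be an elliptic curve over `ℚ`, `a, b ∈ ℤ`, `F` the entire continuation of its
incomplete `L`-series (the Euler factors at the primes dividing `2Δ` are removed), `f` its newform, `N_p`
the number of affine points modulo `p ∤ 2Δ`, and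

`P(x) = ∏_{p ≤ x, p ∤ 2Δ} (N_p + 1)/p`.

Goldfeld (1982) proved that an asymptotic formula `P(x) ∼ C (log x)^ρ`, `C > 0`, implies the Riemann hypothesis
for `F`, `ρ = ord_{s=1} F` and `C = √2 e^{ργ} ρ! / F^{(ρ)}(1)`. Here the following one-sided condition is
considered, in which no constant and no exponent appear:

(SV) for every `ε > 0` there is a `δ > 0` such that `P(y) ≤ (1 + ε) P(x)` for all large `x` and
`x ≤ y ≤ x^(1+δ)`.

Theorem. Let `m = ord_{s=1} F`.
* (SV) holds if and only if `P(x) / (log x)^m → √2 e^{mγ} m! / |F^{(m)}(1)|`, if and only if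
  `P(x) / (log x)^m` converges to some positive number, if and only if `F` has no REAL zeros `> 1` and the
  lower form of (SV) holds (`P(x) ≤ (1 + ε) P(y)` for `x ≤ y ≤ x^(1+δ)`).
* For every integer `r ≥ 0` and every real `B > 0`:
  `P(x) / (log x)^r → √2 e^{rγ} / B` if and only if (SV) holds, `ord_{s=1} F = r` and `F^{(r)}(1) / r! = B`.

With `r` the rank of `E(ℚ)` and `B` the conjectural leading coefficient
`Ω Reg #Ш ∏ c_p / #E(ℚ)_tors²`, divided by the Euler factors at `s = 1` of the primes dividing `2Δ`, the last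
statement says: the parts (i) and (iii) of the strong conjecture (order and leading coefficient) together with
(SV) are equivalent to `P(x) ∼ (√2 e^{rγ} / B) (log x)^r`. Nothing is assumed on the zeros of `F`.

Proof. Up to `o(1)`, `log P(e^u)` is `-log √2` plus a function whose Laplace transform is given by
`log F(1 + s)`. (SV) allows a Tauberian argument of Karamata type (one-sided, on the logarithmic scale)
at real `s → 0`. Then the theorem of Rankin and Selberg gives the factor `√2`. See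
`Pool.Agent.W263.BSD.Lead1` to `Lead8` and `Pool.Agent.TH941`.
-/

set_option autoImplicit false

open Filter Topology Classical CongruenceSubgroup UpperHalfPlane
open scoped MatrixGroups

namespace Pool.Agent.Results.MP_4a9ea6_nt.LeadingTermOneSided

/-- `N_p`: the number of pairs `(x, y) ∈ (ℤ/p)²` with `y² = x³ + a x + b`. -/
noncomputable def N (a b : ℤ) (p : ℕ) : ℕ :=
  Nat.card {q : ZMod p × ZMod p // q.2 ^ 2 = q.1 ^ 3 + (a : ZMod p) * q.1 + (b : ZMod p)}

/-- `p` is a prime not dividing `2Δ`, `Δ = -4 a³ - 27 b²`. -/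
def Good (a b : ℤ) (p : ℕ) : Prop :=
  p.Prime ∧ ¬ ((p : ℤ) ∣ 2 * (-4 * a ^ 3 - 27 * b ^ 2))

/-- The original Birch and Swinnerton-Dyer product `P(x) = ∏_{p ≤ x, p ∤ 2Δ} (N_p + 1)/p`. -/
noncomputable def P (a b : ℤ) (x : ℝ) : ℝ :=
  ∏ p ∈ (Finset.range (⌊x⌋₊ + 1)).filter (Good a b), (((N a b p : ℝ) + 1) / p)

/-- `F` is entire and for `Re s > 3/2` it is the incomplete `L`-series
`∏_{p ∤ 2Δ} (1 - a_p p^{-s} + p^{1-2s})⁻¹`, `a_p = p - N_p`, of `y² = x³ + a x + b`. -/
def IsLSeries (a b : ℤ) (F : ℂ → ℂ) : Prop :=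
  Differentiable ℂ F ∧ ∀ s : ℂ, (3 : ℝ) / 2 < s.re →
    HasProd (fun p : ℕ => if Good a b p then
      (1 - ((p : ℂ) - (N a b p : ℂ)) * (p : ℂ) ^ (-s) + (p : ℂ) ^ (1 - 2 * s))⁻¹ else 1) (F s)

/-- The `n`-th Fourier coefficient of `f`. -/
noncomputable def coef {M : ℕ} (f : CuspForm (Gamma0 M : Subgroup (GL (Fin 2) ℝ)) 2) (n : ℕ) : ℂ :=
  (qExpansion 1 f).coeff n

/-- `f ∈ S_2(Γ₀(M))` is the newform of the elliptic curve `E : y² = x³ + a x + b` of conductor `M`: the
Fourier coefficients `c(n)` of `f` are real with `c(1) = 1`, they satisfy the Hecke relations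
`c(mn) = c(m) c(n)` for coprime `m`, `n` and `c(p^(j+2)) = c(p) c(p^(j+1)) - p c(p^j)` (without the last
term if `p ∣ M`), `c(p) = a_p = p - N_p` for all primes `p ∤ 2Δ`, `|c(p)| ≤ 2 √p` for all
`p ∤ M` (Hasse) and `c(p) = 0, 1, -1` for `p ∣ M`. -/
structure IsNewformOf (a b : ℤ) (M : ℕ) (f : CuspForm (Gamma0 M : Subgroup (GL (Fin 2) ℝ)) 2) :
    Prop where
  one : coef f 1 = 1
  real : ∀ n, (coef f n).im = 0
  mul : ∀ m n : ℕ, Nat.Coprime m n → coef f (m * n) = coef f m * coef f n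
  pow : ∀ p j : ℕ, p.Prime → coef f (p ^ (j + 2)) = coef f p * coef f (p ^ (j + 1)) -
      (if p ∣ M then 0 else (p : ℂ) * coef f (p ^ j))
  points : ∀ p : ℕ, Good a b p → coef f p = (p : ℂ) - (N a b p : ℂ)
  good : ∀ p : ℕ, p.Prime → ¬ p ∣ M → ‖coef f p‖ ≤ 2 * Real.sqrt p
  bad : ∀ p : ℕ, p.Prime → p ∣ M → coef f p = 0 ∨ coef f p = 1 ∨ coef f p = -1

/-- (SV): `P(y) ≤ (1 + ε) P(x)` for `x ≤ y ≤ x^(1+δ)`, `δ = δ(ε)`, `x` large. -/
def SlowUp (a b : ℤ) : Prop :=
  ∀ ε : ℝ, 0 < ε → ∃ δ : ℝ, 0 < δ ∧ ∀ᶠ x : ℝ in atTop, ∀ y : ℝ, x ≤ y → y ≤ x ^ (1 + δ) →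
    P a b y ≤ (1 + ε) * P a b x

/-- the lower form: `P(x) ≤ (1 + ε) P(y)` for `x ≤ y ≤ x^(1+δ)`, `δ = δ(ε)`, `x` large. -/
def SlowDown (a b : ℤ) : Prop :=
  ∀ ε : ℝ, 0 < ε → ∃ δ : ℝ, 0 < δ ∧ ∀ᶠ x : ℝ in atTop, ∀ y : ℝ, x ≤ y → y ≤ x ^ (1 + δ) →
    P a b x ≤ (1 + ε) * P a b y

/-! ### Auxiliary results -/

variable {a b : ℤ}

theorem P_pos (x : ℝ) : 0 < P a b x := Pool.Agent.W263.BSD.bsdProduct_pos x

/-- iteration of the comparison -/
theorem iterate {δ : ℝ} (hδ : 0 < δ) {K : ℝ} (hK : 1 ≤ K) {X : ℝ} (hX : 1 ≤ X)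
    (h : ∀ x, X ≤ x → ∀ y, x ≤ y → y ≤ x ^ (1 + δ) → P a b y ≤ K * P a b x) (n : ℕ) :
    ∀ x, X ≤ x → ∀ y, x ≤ y → y ≤ x ^ ((1 + δ) ^ n) → P a b y ≤ K ^ n * P a b x := by
  induction n with
  | zero =>
    intro x hx y h1 h2
    rw [pow_zero, Real.rpow_one] at h2
    rw [pow_zero, le_antisymm h2 h1, one_mul]
  | succ n ih =>
    intro x hx y h1 h2
    have hx1 : 1 ≤ x := hX.trans hx
    by_cases h3 : y ≤ x ^ ((1 + δ) ^ n)
    · refine (ih x hx y h1 h3).trans (mul_le_mul_of_nonneg_right ?_ (P_pos x).le)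
      exact pow_le_pow_right₀ hK (Nat.le_succ n)
    · push Not at h3
      have h4 : x ≤ x ^ ((1 + δ) ^ n) := by
        nth_rewrite 1 [← Real.rpow_one x]
        exact Real.rpow_le_rpow_of_exponent_le hx1 (one_le_pow₀ (by linarith))
      have h5 := ih x hx _ h4 le_rfl
      have h6 := h _ (hx.trans h4) y h3.le (by
        rw [← Real.rpow_mul (by linarith), ← pow_succ]
        exact h2)
      calc P a b y ≤ K * P a b (x ^ ((1 + δ) ^ n)) := h6
        _ ≤ K * (K ^ n * P a b x) := mul_le_mul_of_nonneg_left h5 (by linarith)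
        _ = K ^ (n + 1) * P a b x := by ring

theorem doubling (h : SlowUp a b) :
    ∃ K : ℝ, ∀ᶠ x : ℝ in atTop, ∀ y, x ≤ y → y ≤ x ^ 2 → P a b y ≤ K * P a b x := by
  obtain ⟨δ, hδ, hK⟩ := h 1 one_pos
  obtain ⟨X, hX⟩ := eventually_atTop.mp hK
  obtain ⟨n, hn⟩ : ∃ n : ℕ, 2 ≤ (1 + δ) ^ n :=
    ((tendsto_pow_atTop_atTop_of_one_lt (by linarith : (1 : ℝ) < 1 + δ)).eventually_ge_atTop 2).exists
  refine ⟨(1 + 1) ^ n, ?_⟩
  filter_upwards [eventually_ge_atTop (max X 1)] with x hx y h1 h2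
  refine iterate hδ (by norm_num) (X := max X 1) (le_max_right _ _)
    (fun x hx y h1 h2 => hX x ((le_max_left _ _).trans hx) y h1 h2) n x hx y h1 (h2.trans ?_)
  have hx1 : 1 ≤ x := (le_max_right _ _).trans hx
  rw [← Real.rpow_natCast]
  exact Real.rpow_le_rpow_of_exponent_le hx1 (by exact_mod_cast hn)

/-- uniqueness of the exponent -/
theorem exponent_unique {r m : ℕ} {A B : ℝ} (hA : 0 < A) (hB : 0 < B)
    (h1 : Tendsto (fun x : ℝ => P a b x / (Real.log x) ^ r) atTop (𝓝 A))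
    (h2 : Tendsto (fun x : ℝ => P a b x / (Real.log x) ^ m) atTop (𝓝 B)) : r = m := by
  have key : ∀ (r m : ℕ) (A B : ℝ), 0 < A → 0 < B →
      Tendsto (fun x : ℝ => P a b x / (Real.log x) ^ r) atTop (𝓝 A) →
      Tendsto (fun x : ℝ => P a b x / (Real.log x) ^ m) atTop (𝓝 B) → r ≤ m := by
    intro r m A B hA hB h1 h2
    by_contra hlt
    push Not at hlt
    obtain ⟨k, hk⟩ := Nat.exists_eq_add_of_lt hlt
    have h3 := h2.div h1 hA.ne'
    have h4 : Tendsto (fun x : ℝ => (Real.log x) ^ (k + 1)) atTop atTop :=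
      (tendsto_pow_atTop (Nat.succ_ne_zero k)).comp Real.tendsto_log_atTop
    refine not_tendsto_nhds_of_tendsto_atTop h4 _ (h3.congr' ?_)
    filter_upwards [eventually_gt_atTop (1 : ℝ)] with x hx
    have hl : 0 < Real.log x := Real.log_pos hx
    have hP := P_pos (a := a) (b := b) x
    simp only [Pi.div_apply]
    rw [hk]
    field_simp
    ring
  exact le_antisymm (key r m A B hA hB h1 h2) (key m r B A hB hA h2 h1)

theorem hecke {M : ℕ} {f : CuspForm (Gamma0 M : Subgroup (GL (Fin 2) ℝ)) 2}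
    (hf : IsNewformOf a b M f) : Pool.Agent.TH941.Hecke f where
  one := hf.one
  real := hf.real
  mul := hf.mul
  pow := hf.pow
  good := hf.good
  bad := fun p hp h => by
    rcases hf.bad p hp h with h1 | h1 | h1
    · have h2 : ‖coef f p‖ ≤ 1 := by rw [h1]; simp
      exact h2
    · have h2 : ‖coef f p‖ ≤ 1 := by rw [h1]; simp
      exact h2
    · have h2 : ‖coef f p‖ ≤ 1 := by rw [h1]; simp
      exact h2

/-- **The leading term and one-sided slow variation of the products of Birch and Swinnerton-Dyer.** -/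
theorem result (a b : ℤ) (hΔ : 4 * a ^ 3 + 27 * b ^ 2 ≠ 0) (F : ℂ → ℂ) (hF : IsLSeries a b F)
    (M : ℕ) [NeZero M] (f : CuspForm (Gamma0 M : Subgroup (GL (Fin 2) ℝ)) 2)
    (hf : IsNewformOf a b M f) :
    (∃ m : ℕ, analyticOrderAt F 1 = m ∧ List.TFAE [
      Tendsto (fun x : ℝ => P a b x / (Real.log x) ^ m) atTop
        (𝓝 (√2 * Real.exp (m * Real.eulerMascheroniConstant) * m.factorial /
          ‖iteratedDeriv m F 1‖)),
      ∃ C : ℝ, 0 < C ∧ Tendsto (fun x : ℝ => P a b x / (Real.log x) ^ m) atTop (𝓝 C),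
      SlowUp a b,
      (∀ s : ℝ, 1 < s → F s ≠ 0) ∧ SlowDown a b]) ∧
    ∀ (r : ℕ) (B : ℝ), 0 < B →
      (Tendsto (fun x : ℝ => P a b x / (Real.log x) ^ r) atTop
        (𝓝 (√2 * Real.exp (r * Real.eulerMascheroniConstant) / B)) ↔
      SlowUp a b ∧ analyticOrderAt F 1 = r ∧ iteratedDeriv r F 1 / (r.factorial : ℂ) = B) := by
  have hF' : Pool.Agent.W263.BSD.IsLSeries a b F := hF
  obtain ⟨m, hm⟩ : ∃ m : ℕ, analyticOrderAt F 1 = m :=
    Pool.Agent.W189.ML.order_finite_all hF' 1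
  have hrs : Tendsto (Pool.Agent.W263.BSD.rsSum a b) atTop (𝓝 0) :=
    (hecke hf).rsSum_tendsto hΔ fun p hp => hf.points p hp
  have hiff : ∀ (r : ℕ) (C : ℝ),
      Tendsto (fun x : ℝ => P a b x / (Real.log x) ^ r) atTop (𝓝 (√2 * C)) ↔
        Tendsto (fun x : ℝ => Pool.Agent.W263.BSD.bsdStar a b x / (Real.log x) ^ r) atTop
          (𝓝 C) := fun r C => Pool.Agent.W263.BSD.product_iff_star hΔ hrs r C
  have htf := Pool.Agent.W263.BSD.lead_tfae hF' hm
  obtain ⟨hpos, -⟩ := Pool.Agent.W263.BSD.lead_limit hF.1 hm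
  have hs2 : 0 < √(2 : ℝ) := Real.sqrt_pos.2 two_pos
  have hfac : (0 : ℝ) < m.factorial := by exact_mod_cast m.factorial_pos
  have hn : 0 < ‖iteratedDeriv m F 1‖ := by
    unfold Pool.Agent.W263.BSD.leadAbs at hpos
    by_contra h
    have h1 : ‖iteratedDeriv m F 1‖ = 0 := le_antisymm (not_lt.1 h) (norm_nonneg _)
    rw [h1, zero_div] at hpos
    exact lt_irrefl _ hpos
  have hconst : √2 * Real.exp (m * Real.eulerMascheroniConstant) * m.factorial /
      ‖iteratedDeriv m F 1‖ = √2 * (Real.exp (m * Real.eulerMascheroniConstant) /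
        Pool.Agent.W263.BSD.leadAbs F m) := by
    unfold Pool.Agent.W263.BSD.leadAbs
    field_simp
  have h1 : Tendsto (fun x : ℝ => P a b x / (Real.log x) ^ m) atTop
        (𝓝 (√2 * Real.exp (m * Real.eulerMascheroniConstant) * m.factorial /
          ‖iteratedDeriv m F 1‖)) ↔ SlowUp a b := by
    rw [hconst, hiff]
    exact htf.out 0 2
  have h2 : (∃ C : ℝ, 0 < C ∧ Tendsto (fun x : ℝ => P a b x / (Real.log x) ^ m) atTop (𝓝 C)) ↔
      SlowUp a b := by
    have h3 : (∃ C : ℝ, 0 < C ∧ Tendsto (fun x : ℝ => Pool.Agent.W263.BSD.bsdStar a b x /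
        (Real.log x) ^ m) atTop (𝓝 C)) ↔ SlowUp a b := htf.out 1 2
    rw [← h3]
    constructor
    · rintro ⟨C, hC, h⟩
      refine ⟨C / √2, by positivity, ?_⟩
      rw [← hiff]
      have e : √2 * (C / √2) = C := by field_simp
      rw [e]
      exact h
    · rintro ⟨C, hC, h⟩
      exact ⟨√2 * C, by positivity, (hiff m C).2 h⟩
  have h4 : SlowUp a b ↔ (∀ s : ℝ, 1 < s → F s ≠ 0) ∧ SlowDown a b := htf.out 2 3
  refine ⟨⟨m, hm, ?_⟩, fun r B hB => ?_⟩
  · tfae_have 1 ↔ 3 := h1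
    tfae_have 2 ↔ 3 := h2
    tfae_have 3 ↔ 4 := h4
    tfae_finish
  · -- positivity of the leading coefficient
    have hreal : SlowUp a b → iteratedDeriv m F 1 = (‖iteratedDeriv m F 1‖ : ℂ) := by
      intro hS
      obtain ⟨K, hK⟩ := doubling hS
      obtain ⟨K', u0, hK', hu0, h5⟩ := Pool.Agent.W263.BSD.doubling_transfer hK
      obtain ⟨hconv, -⟩ := (Pool.Agent.W263.BSD.data 0 hF').order_of_upper
        (Pool.Agent.W263.BSD.hloc a b 0) (Pool.Agent.W263.BSD.eData a b).GG_bound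
        (Pool.Agent.W263.BSD.ordZero hF' hm) hK' hu0 h5
      exact Pool.Agent.W263.BSD.coeff_real hF' hm hconv
    have hBc : (B : ℂ) ≠ 0 := by exact_mod_cast hB.ne'
    constructor
    · intro h
      have hA : 0 < √2 * Real.exp (r * Real.eulerMascheroniConstant) / B := by positivity
      -- slow variation
      have hS : SlowUp a b := by
        have e : √2 * Real.exp (r * Real.eulerMascheroniConstant) / B =
            √2 * (Real.exp (r * Real.eulerMascheroniConstant) / B) := by ring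
        rw [e, hiff] at h
        intro ε hε
        obtain ⟨δ, hδ, h5⟩ := Pool.Agent.W263.BSD.slow_of_tendsto (by positivity) h hε
        exact ⟨δ, hδ, h5.mono fun x hx y g1 g2 => (hx y g1 g2).1⟩
      have h6 := h1.2 hS
      have hA2 : 0 < √2 * Real.exp (m * Real.eulerMascheroniConstant) * m.factorial /
          ‖iteratedDeriv m F 1‖ := by positivity
      have hrm : r = m := exponent_unique hA hA2 h h6
      subst hrm
      refine ⟨hS, hm, ?_⟩
      have h7 := tendsto_nhds_unique h h6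
      have h8 : ‖iteratedDeriv r F 1‖ = B * r.factorial := by
        rw [div_eq_div_iff hB.ne' hn.ne'] at h7
        have h9 : √2 * Real.exp (r * Real.eulerMascheroniConstant) ≠ 0 := by positivity
        apply mul_left_cancel₀ h9
        rw [h7]
        ring
      rw [hreal hS, h8]
      push_cast
      have : (r.factorial : ℂ) ≠ 0 := by exact_mod_cast r.factorial_ne_zero
      field_simp
    · rintro ⟨hS, h5, h6⟩
      rw [hm] at h5
      have hrm : m = r := by exact_mod_cast h5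
      subst hrm
      have h7 := h1.2 hS
      have h8 : ‖iteratedDeriv m F 1‖ = B * m.factorial := by
        have : (m.factorial : ℂ) ≠ 0 := by exact_mod_cast m.factorial_ne_zero
        rw [div_eq_iff this] at h6
        rw [h6, norm_mul, Complex.norm_real, Complex.norm_natCast, Real.norm_of_nonneg hB.le]
      rw [h8] at h7
      have e : √2 * Real.exp (m * Real.eulerMascheroniConstant) * m.factorial / (B * m.factorial) =
          √2 * Real.exp (m * Real.eulerMascheroniConstant) / B := by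
        field_simp
      rw [e] at h7
      exact h7

end Pool.Agent.Results.MP_4a9ea6_nt.LeadingTermOneSided
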