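import Pool.Agent.Results.MP_696deb_nt.TruncatedWeights

/-!
# The strong conjecture of Birch and Swinnerton-Dyer without regulator and torsion: the original products

Let `C : y² = x³ + a x + b` be an elliptic curve over `ℚ`, `a, b ∈ ℤ`, let `F` be the entire continuation of its
incomplete `L`-series (without the Euler factors at the primes dividing `2Δ`), `N_p` the number of the affine points
modulo `p ∤ 2Δ`, and

`P(x) = ∏_{p ≤ x, p ∤ 2Δ} (N_p + 1)/p`

the original product of Birch and Swinnerton-Dyer (with the sharp cut-off). Let `R(x)` be the number of the RATIONAL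
points of height `≤ x`, `r` the rank of `C(ℚ)`, `t` the order of its torsion subgroup, `Reg` the regulator (defined with
the canonical height `lim 4^{-n} h(x(2^n P))`, as in the question), and `V_r = π^(r/2)/Γ(r/2 + 1)` the volume of the unit
ball in `ℝ^r`. For every real `A > 0` it is shown that the following are EQUIVALENT:

* `ord_{s=1} F = r`, `F^(r)(1)/r! = A Reg/t²`, and `F` has no zeros with `Re s > 1`;
* `P(x)/R(x)² → √2 e^(rγ)/(A V_r²)` in logarithmic mean, that is
  `(log X)⁻¹ ∫_e^X |log (P(x)/R(x)²) - log (√2 e^(rγ)/(A V_r²))| dx/x → 0`;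
* the same in logarithmic square mean.

With the Euler factors `L_p(1)` at the primes `p ∣ 2Δ` and `A = Ω |Sha| ∏ c_p ∏_{p ∣ 2Δ} L_p(1)⁻¹` the formula in the first
statement is that of the strong conjecture of Birch and Swinnerton-Dyer. In the other statements the regulator and the
torsion subgroup (and the `L`-function) do not occur any more: the product of the numbers of points modulo the primes
`p ≤ x` is compared with the square of the number of the rational points of height `≤ x`.

Instead of the mean of the sharp cut-off one can take every single regular truncated weight `w` (a tail integral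
`w(u) = ∫_u^β g` with a square integrable `g`, `∫ g = 1`, or a Riesz weight `(1 - u)^k`, see `Regular`), with
`S_w(X) = ∑ w(log p / log X) log ((N_p + 1)/p)` and the constant `c` of `w`: the first statement is equivalent to
`S_w(X) - 2 log R(X) → log (√2 e^(rc)/(A V_r²))`. And for `w ≥ 0` there is a ONE-SIDED form:

`limsup (S_w(X) - 2 log R(X)) ≤ log (√2 e^(rc)/(A V_r²))`

if and only if `F` has no zeros with `Re s > 1` and either `ord_{s=1} F < r`, or `ord_{s=1} F = r` and
`F^(r)(1)/r! ≥ A Reg/t²`.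

Proof. The one-sided Tauberian part and the limits for the weights are in the imported hand-in on the rank form
(`MP_696deb_nt.TruncatedWeights`), the mean square law of the original product is `Pool.Agent.TH270.MS.EQ.curve_law`, and
the asymptotic formula `R(x) ∼ t V_r (log x)^(r/2)/√Reg` of Néron with the canonical height is `Pool.Agent.TH942.neron`.
-/

set_option autoImplicit false

namespace Pool.Agent.Results.MP_4a9ea6_nt.RegulatorFreeProducts

open Filter Topology Classical MeasureTheory Set CongruenceSubgroup UpperHalfPlane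
open scoped MatrixGroups
open Pool.Agent.Results.MP_696deb_nt.TruncatedWeights (N Good IsLSeries rank numPoints NoZeros Weight
  S tailInt riesz Regular coef IsNewformOf)

/-- The group `C(ℚ)` of the rational points of `y² = x³ + a x + b`. -/
abbrev Points (a b : ℤ) : Type :=
  WeierstrassCurve.Affine.Point (WeierstrassCurve.toAffine
    ({ a₁ := 0, a₂ := 0, a₃ := 0, a₄ := (a : ℚ), a₆ := (b : ℚ) } : WeierstrassCurve ℚ))

/-- The height `log max (|m|, n)` of a point with `x = m / n` in lowest terms, and `0` for the point at infinity. -/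
noncomputable def height {a b : ℤ} : Points a b → ℝ
  | .zero => 0
  | .some x _ _ => Real.log (max x.num.natAbs x.den : ℕ)

/-- The canonical height `lim 4^{-n} h(x(2^n P))`. -/
noncomputable def canHeight {a b : ℤ} (P : Points a b) : ℝ :=
  limUnder atTop fun n : ℕ => height ((2 ^ n : ℕ) • P) / 4 ^ n

/-- `⟨P, Q⟩ = (ĥ(P + Q) - ĥ(P) - ĥ(Q)) / 2` -/
noncomputable def pairing {a b : ℤ} (P Q : Points a b) : ℝ :=
  (canHeight (P + Q) - canHeight P - canHeight Q) / 2

/-- `g` is a basis of `C(ℚ)` modulo torsion. -/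
def IsBasis {a b : ℤ} {r : ℕ} (g : Fin r → Points a b) : Prop :=
  ∀ P : Points a b, ∃! n : Fin r → ℤ, IsOfFinAddOrder (P - ∑ i, n i • g i)

/-- The regulator `det (⟨g_i, g_j⟩)`. -/
noncomputable def Reg {a b : ℤ} {r : ℕ} (g : Fin r → Points a b) : ℝ :=
  (Matrix.of fun i j => pairing (g i) (g j)).det

/-- The order of the torsion subgroup. -/
noncomputable def numTorsion (a b : ℤ) : ℕ := Nat.card {P : Points a b // IsOfFinAddOrder P}

/-- The volume `π^(r/2) / Γ(r/2 + 1)` of the unit ball in `ℝ^r`. -/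
noncomputable def V (r : ℕ) : ℝ := √Real.pi ^ r / Real.Gamma (r / 2 + 1)

/-- The original product of Birch and Swinnerton-Dyer, `∏ (N_p + 1)/p` over the primes `p ≤ x`, `p ∤ 2Δ`. -/
noncomputable def product (a b : ℤ) (x : ℝ) : ℝ :=
  ∏ p ∈ (Finset.range (⌊x⌋₊ + 1)).filter (Good a b), (((N a b p : ℝ) + 1) / p)

/-- `log (√2 e^(rc) / (A V_r²))` -/
noncomputable def const (r : ℕ) (c A : ℝ) : ℝ := Real.log (√2 * Real.exp (r * c) / (A * V r ^ 2))

variable {a b : ℤ} {F : ℂ → ℂ}

/-! ### The canonical height and Néron's asymptotic formula -/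

theorem height_eq (P : Points a b) : height P = Pool.Agent.TH942.sht (a := (a : ℚ)) (b := (b : ℚ)) P := by
  cases P with
  | zero =>
    have h : Pool.Agent.TH942.sht (K := ℚ) (a := (a : ℚ)) (b := (b : ℚ)) (0 : Points a b) = 0 :=
      Pool.Agent.TH942.sht_zero
    exact h.symm
  | some x y h => exact (Pool.Agent.TH942.sht_some h).symm

theorem neron' (hΔ : 4 * a ^ 3 + 27 * b ^ 2 ≠ 0) :
    (∀ P : Points a b, Tendsto (fun n : ℕ => height ((2 ^ n : ℕ) • P) / 4 ^ n) atTop
      (𝓝 (canHeight P))) ∧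
    (∃ (r : ℕ) (g : Fin r → Points a b), IsBasis g) ∧ 0 < numTorsion a b ∧
    ∀ (r : ℕ) (g : Fin r → Points a b), IsBasis g → rank a b = r ∧ 0 < Reg g ∧
      Tendsto (fun X : ℝ => (numPoints a b X : ℝ) / (Real.log X) ^ ((r : ℝ) / 2)) atTop
        (𝓝 (numTorsion a b * V r / √ (Reg g))) := by
  have hD : 4 * (a : ℚ) ^ 3 + 27 * (b : ℚ) ^ 2 ≠ 0 := by exact_mod_cast hΔ
  obtain ⟨q, C, h1, h2, h3, h4, h5⟩ := Pool.Agent.TH942.neron (K := ℚ) hD
  have hq : ∀ P : Points a b, canHeight P = q P := by
    intro P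
    refine Tendsto.limUnder_eq ((h4 P).congr fun n => ?_)
    rw [height_eq]
    rfl
  refine ⟨fun P => ?_, ?_, ?_, fun r g hg => ?_⟩
  · rw [hq]
    refine (h4 P).congr fun n => ?_
    rw [height_eq]
    rfl
  · exact Pool.Agent.TH942.exists_basis (Pool.Agent.TH942.sfg hD)
  · have e1 : Nonempty {t : Points a b // IsOfFinAddOrder t} := ⟨⟨0, IsOfFinAddOrder.zero⟩⟩
    have e2 : Finite {t : Points a b // IsOfFinAddOrder t} := by
      have : {t : Points a b | IsOfFinAddOrder t} ⊆
          {P | Pool.Agent.TH942.sht (a := (a : ℚ)) (b := (b : ℚ)) P ≤ C} := by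
        intro t ht
        have g9 := Pool.Agent.TH942.q_comb q h2 (ι := Fin 0) (fun i => i.elim0) t ht 0
        simp only [Finset.univ_eq_empty, Finset.sum_empty, zero_add] at g9
        have g10 := abs_le.1 (h3 t)
        simp only [Set.mem_ofPred_eq]
        linarith
      exact ((Pool.Agent.TH942.sfinite_ht C).subset this).to_subtype
    exact Nat.card_pos
  · have h6 : Reg g = (Pool.Agent.TH942.gram q g).det := by
      unfold Reg Pool.Agent.TH942.gram pairing
      simp only [hq]
      rfl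
    obtain ⟨h7, h8⟩ := h5 (Fin r) g hg
    rw [h6]
    refine ⟨(Pool.Agent.TH942.card_basis (A := Points a b) hg).trans (Fintype.card_fin r), h7, ?_⟩
    simp only [Fintype.card_fin] at h8
    refine (h8.comp Real.tendsto_log_atTop).congr' ?_
    filter_upwards [eventually_ge_atTop 1] with X hX
    simp only [Function.comp_apply]
    have h9 : numPoints a b X = Pool.Agent.TH942.ratCount a b X := rfl
    rw [h9, Pool.Agent.TH942.ratCount_eq hD hX]

theorem V_pos (r : ℕ) : 0 < V r := Pool.Agent.TH942.ballVol_pos r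

/-- `2 log R(X) = r log log X + log (t² V_r² / Reg) + o(1)` -/
theorem points_log (hΔ : 4 * a ^ 3 + 27 * b ^ 2 ≠ 0) {r : ℕ} {g : Fin r → Points a b}
    (hg : IsBasis g) : Tendsto (fun X : ℝ => 2 * Real.log (numPoints a b X) -
      r * Real.log (Real.log X)) atTop
      (𝓝 (Real.log ((numTorsion a b : ℝ) ^ 2 * V r ^ 2 / Reg g))) := by
  obtain ⟨-, -, ht, h⟩ := neron' hΔ
  obtain ⟨-, h1, h2⟩ := h r g hg
  have ht' : (0 : ℝ) < numTorsion a b := by exact_mod_cast ht
  have hV := V_pos r
  have h3 : 0 < (numTorsion a b : ℝ) * V r / √ (Reg g) := by positivity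
  have h4 := ((Real.continuousAt_log h3.ne').tendsto.comp h2).const_mul 2
  have h5 : 2 * Real.log ((numTorsion a b : ℝ) * V r / √ (Reg g)) =
      Real.log ((numTorsion a b : ℝ) ^ 2 * V r ^ 2 / Reg g) := by
    have e1 : (numTorsion a b : ℝ) ^ 2 * V r ^ 2 / Reg g =
        ((numTorsion a b : ℝ) * V r / √ (Reg g)) ^ 2 := by
      rw [div_pow, mul_pow, Real.sq_sqrt h1.le]
    rw [e1, Real.log_pow]
    norm_num
  rw [h5] at h4
  refine h4.congr' ?_
  filter_upwards [eventually_gt_atTop 1] with X hX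
  have hT : 0 < Real.log X := Real.log_pos hX
  simp only [Function.comp_apply]
  have e1 : (0 : ℝ) < (numPoints a b X : ℝ) := by
    unfold numPoints
    positivity
  rw [Real.log_div e1.ne' (Real.rpow_pos_of_pos hT _).ne', Real.log_rpow hT]
  ring

/-! ### Weights -/

open Pool.Agent.Results.MP_696deb_nt.TruncatedWeights (loglog_atTop limit_two limit_one regular_lim hecke)

/-- bounded functions are negligible -/
theorem negligible {g : ℝ → ℝ} {κ ε : ℝ} (hg : Tendsto g atTop (𝓝 κ)) (hε : 0 < ε) :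
    ∀ᶠ X : ℝ in atTop, |g X| ≤ ε * Real.log (Real.log X) := by
  have h1 : ∀ᶠ X in atTop, |g X| < |κ| + 1 := hg.abs.eventually (gt_mem_nhds (lt_add_one _))
  have h2 := (loglog_atTop.const_mul_atTop hε).eventually_ge_atTop (|κ| + 1)
  filter_upwards [h1, h2] with X e1 e2
  linarith

/-- the strong form -/
def Strong (F : ℂ → ℂ) (r : ℕ) (q : ℝ) : Prop :=
  analyticOrderAt F 1 = r ∧ iteratedDeriv r F 1 / (r.factorial : ℂ) = (q : ℂ) ∧ NoZeros F

section

variable {M : ℕ} [NeZero M] {f : CuspForm (Gamma0 M : Subgroup (GL (Fin 2) ℝ)) 2}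
  {w : ℝ → ℝ} {β c A : ℝ} {r : ℕ} {g : Fin r → Points a b}

/-- the constants -/
theorem const_eq (hΔ : 4 * a ^ 3 + 27 * b ^ 2 ≠ 0) (hg : IsBasis g) (hA : 0 < A) :
    0 < A * Reg g / (numTorsion a b : ℝ) ^ 2 ∧
    const r c A = Real.log (√2 * Real.exp (r * c) / (A * Reg g / (numTorsion a b : ℝ) ^ 2)) -
      Real.log ((numTorsion a b : ℝ) ^ 2 * V r ^ 2 / Reg g) := by
  obtain ⟨-, -, ht, h⟩ := neron' hΔ
  obtain ⟨-, h1, -⟩ := h r g hg
  have ht' : (0 : ℝ) < numTorsion a b := by exact_mod_cast ht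
  have hV := V_pos r
  have h2 : 0 < √(2 : ℝ) := by positivity
  refine ⟨by positivity, ?_⟩
  unfold const
  rw [← Real.log_div (by positivity) (by positivity)]
  congr 1
  field_simp

theorem strong_iff (hΔ : 4 * a ^ 3 + 27 * b ^ 2 ≠ 0) (hF : IsLSeries a b F)
    (hf : IsNewformOf a b M f) (hw : Weight w β) (hreg : Regular w β c) (hg : IsBasis g)
    (hA : 0 < A) : Strong F r (A * Reg g / (numTorsion a b : ℝ) ^ 2) ↔
      Tendsto (fun X : ℝ => S a b w β X - 2 * Real.log (numPoints a b X)) atTop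
        (𝓝 (const r c A)) := by
  obtain ⟨m, hm⟩ : ∃ m : ℕ, analyticOrderAt F 1 = m :=
    Pool.Agent.W189.ML.order_finite_all (a := a) (b := b) hF 1
  have hN := points_log hΔ hg
  obtain ⟨hq, hc⟩ := const_eq (c := c) hΔ hg hA
  set q : ℝ := A * Reg g / (numTorsion a b : ℝ) ^ 2 with hqd
  set c₀ : ℝ := Real.log ((numTorsion a b : ℝ) ^ 2 * V r ^ 2 / Reg g) with hc₀
  have h2 : 0 < √(2 : ℝ) * Real.exp (r * c) := by positivity
  rw [hc]
  constructor
  · rintro ⟨h3, h4, hz⟩
    have hmr : m = r := by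
      rw [hm] at h3
      exact_mod_cast h3
    subst hmr
    obtain ⟨κ, h5, h6⟩ := regular_lim hΔ hF (hecke hf) hf.points hm hz hreg
    rw [h4, ← Complex.ofReal_mul] at h6
    have h7 := Complex.ofReal_injective h6
    have h8 : κ = Real.log (√2 * Real.exp (m * c) / q) := by
      rw [← h7, mul_div_assoc, div_self hq.ne', mul_one, Real.log_exp]
    rw [← h8]
    refine (h5.sub hN).congr fun X => ?_
    ring
  · intro h3
    have h4 : Tendsto (fun X : ℝ => S a b w β X / Real.log (Real.log X)) atTop (𝓝 (r : ℝ)) := by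
      have h5 := ((h3.add hN).div_atTop loglog_atTop).add_const (r : ℝ)
      rw [zero_add] at h5
      refine h5.congr' ?_
      filter_upwards [loglog_atTop.eventually_gt_atTop 0] with X hX
      have : Real.log (Real.log X) ≠ 0 := hX.ne'
      field_simp
      ring
    obtain ⟨hz, h5⟩ := limit_two hw hF hm h4
    have hmr : r = m := by exact_mod_cast h5
    subst hmr
    obtain ⟨κ, h6, h7⟩ := regular_lim hΔ hF (hecke hf) hf.points hm hz hreg
    refine ⟨hm, ?_, hz⟩
    have h8 : κ = Real.log (√2 * Real.exp (r * c) / q) := by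
      have h9 := tendsto_nhds_unique ((h6.sub hN).congr fun X => by ring) h3
      linarith
    rw [h8, Real.exp_log (by positivity)] at h7
    have h9 : ((√2 * Real.exp (r * c) / q : ℝ) : ℂ) ≠ 0 := by
      exact_mod_cast (by positivity : √2 * Real.exp (r * c) / q ≠ 0)
    apply mul_left_cancel₀ h9
    rw [h7, ← Complex.ofReal_mul]
    congr 1
    field_simp

/-- **the one-sided form** -/
theorem one_sided_iff (hΔ : 4 * a ^ 3 + 27 * b ^ 2 ≠ 0) (hF : IsLSeries a b F)
    (hf : IsNewformOf a b M f) (hw : Weight w β) (hreg : Regular w β c) (hw0 : ∀ u, 0 ≤ w u)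
    (hg : IsBasis g) (hA : 0 < A) :
    (NoZeros F ∧ (analyticOrderAt F 1 < r ∨ (analyticOrderAt F 1 = r ∧ ∃ l : ℝ,
      iteratedDeriv r F 1 / (r.factorial : ℂ) = (l : ℂ) ∧
        A * Reg g / (numTorsion a b : ℝ) ^ 2 ≤ l))) ↔
      ∀ ε : ℝ, 0 < ε → ∀ᶠ X : ℝ in atTop,
        S a b w β X ≤ 2 * Real.log (numPoints a b X) + const r c A + ε := by
  obtain ⟨m, hm⟩ : ∃ m : ℕ, analyticOrderAt F 1 = m :=
    Pool.Agent.W189.ML.order_finite_all (a := a) (b := b) hF 1
  have hN := points_log hΔ hg
  obtain ⟨hq, hc⟩ := const_eq (c := c) hΔ hg hA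
  set q : ℝ := A * Reg g / (numTorsion a b : ℝ) ^ 2 with hqd
  set c₀ : ℝ := Real.log ((numTorsion a b : ℝ) ^ 2 * V r ^ 2 / Reg g) with hc₀
  have h2 : 0 < √(2 : ℝ) * Real.exp (r * c) := by positivity
  constructor
  · rintro ⟨hz, h3⟩ ε hε
    obtain ⟨κ, h5, h6⟩ := regular_lim hΔ hF (hecke hf) hf.points hm hz hreg
    rcases h3 with h3 | ⟨h3, l, h4, h7⟩
    · -- smaller order
      have hmr : m < r := by
        rw [hm] at h3
        exact_mod_cast h3
      have hmr' : (m : ℝ) + 1 ≤ r := by exact_mod_cast hmr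
      have h8 := (h5.sub hN).eventually (gt_mem_nhds (lt_add_one _))
      filter_upwards [h8, loglog_atTop.eventually_ge_atTop
        (κ - c₀ + 1 - const r c A), loglog_atTop.eventually_ge_atTop 0] with X e1 e2 e3
      have e4 := mul_le_mul_of_nonneg_right hmr' e3
      linarith
    · have hmr : m = r := by
        rw [hm] at h3
        exact_mod_cast h3
      subst hmr
      rw [h4, ← Complex.ofReal_mul] at h6
      have h9 := Complex.ofReal_injective h6
      have hl : 0 < l := lt_of_lt_of_le hq h7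
      have h8 : κ ≤ Real.log (√2 * Real.exp (m * c) / q) := by
        rw [Real.le_log_iff_exp_le (by positivity), le_div_iff₀ hq, ← h9]
        exact mul_le_mul_of_nonneg_left h7 (Real.exp_pos κ).le
      have h10 : κ - c₀ < const m c A + ε := by
        rw [hc]
        linarith
      filter_upwards [(h5.sub hN).eventually (gt_mem_nhds h10)] with X e1
      linarith
  · intro h3
    have h4 : ∀ ε : ℝ, 0 < ε → ∀ᶠ X : ℝ in atTop,
        S a b w β X ≤ ((r : ℝ) + ε) * Real.log (Real.log X) := by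
      intro ε hε
      have h5 : Tendsto (fun X : ℝ => (2 * Real.log (numPoints a b X) -
        r * Real.log (Real.log X)) + (const r c A + 1)) atTop (𝓝 (c₀ + (const r c A + 1))) :=
        hN.add_const _
      filter_upwards [h3 1 one_pos, negligible h5 hε] with X e1 e2
      have e3 := (abs_le.1 e2).2
      linarith
    obtain ⟨hz, h5⟩ := limit_one hw hw0 hF hm h4
    refine ⟨hz, ?_⟩
    have h6 : m ≤ r := by exact_mod_cast h5
    rcases h6.lt_or_eq with h7 | h7
    · left
      rw [hm]
      exact_mod_cast h7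
    · right
      subst h7
      refine ⟨hm, ?_⟩
      obtain ⟨κ, h8, h9⟩ := regular_lim hΔ hF (hecke hf) hf.points hm hz hreg
      have h10 : κ - c₀ ≤ const m c A := by
        refine le_of_forall_pos_le_add fun ε hε => ?_
        refine le_of_tendsto (h8.sub hN) ?_
        filter_upwards [h3 ε hε] with X e1
        linarith
      refine ⟨√2 * Real.exp (m * c) / Real.exp κ, ?_, ?_⟩
      · have e1 : ((Real.exp κ : ℝ) : ℂ) ≠ 0 := by exact_mod_cast (Real.exp_pos κ).ne'
        rw [Complex.ofReal_div, ← h9, mul_div_cancel_left₀ _ e1]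
      · rw [hc] at h10
        have h11 : κ ≤ Real.log (√2 * Real.exp (m * c) / q) := by linarith
        rw [Real.le_log_iff_exp_le (by positivity), le_div_iff₀ hq] at h11
        rw [le_div_iff₀ (Real.exp_pos κ)]
        linarith

end

/-! ### The original product in mean -/

open Pool.Agent.TH270.MS (BM LI lmean lmean_iff lmean_of_sq lmean_zero)
open Pool.Agent.TH270.MS.EQ (dev dev_eq bm_dev bm_product)

theorem numPoints_card (hΔ : 4 * a ^ 3 + 27 * b ^ 2 ≠ 0) {X : ℝ} (hX : 1 ≤ X) :
    numPoints a b X = Nat.card {P : Pool.Agent.TH942.SPt (a : ℚ) (b : ℚ) //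
      Pool.Agent.TH942.sht P ≤ Real.log X} := by
  have hD : 4 * (a : ℚ) ^ 3 + 27 * (b : ℚ) ^ 2 ≠ 0 := by exact_mod_cast hΔ
  exact Pool.Agent.TH942.ratCount_eq hD hX

theorem bm_points (hΔ : 4 * a ^ 3 + 27 * b ^ 2 ≠ 0) : BM fun x => Real.log (numPoints a b x) := by
  set C : ℝ → ℝ := fun T => (Nat.card {P : Pool.Agent.TH942.SPt (a : ℚ) (b : ℚ) //
      Pool.Agent.TH942.sht P ≤ T} : ℝ) with hC
  have hfin : ∀ T : ℝ, Finite {P : Pool.Agent.TH942.SPt (a : ℚ) (b : ℚ) //
      Pool.Agent.TH942.sht P ≤ T} := fun T => (Pool.Agent.TH942.sfinite_ht T).to_subtype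
  have hmono : Monotone C := by
    intro S T hST
    have := hfin T
    rw [hC]
    simp only
    exact_mod_cast Nat.card_le_card_of_injective
      (fun P : {P : Pool.Agent.TH942.SPt (a : ℚ) (b : ℚ) // Pool.Agent.TH942.sht P ≤ S} =>
        (⟨P.1, P.2.trans hST⟩ : {P : Pool.Agent.TH942.SPt (a : ℚ) (b : ℚ) //
          Pool.Agent.TH942.sht P ≤ T})) (fun P Q h => Subtype.ext (by
            have := congrArg Subtype.val h
            exact this))
  have hpos : ∀ T : ℝ, 0 ≤ T → 1 ≤ C T := by
    intro T hT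
    have := hfin T
    have h1 : Nonempty {P : Pool.Agent.TH942.SPt (a : ℚ) (b : ℚ) //
        Pool.Agent.TH942.sht P ≤ T} := ⟨⟨0, by rw [Pool.Agent.TH942.sht_zero]; exact hT⟩⟩
    rw [hC]
    simp only
    exact_mod_cast Nat.card_pos
  have hb : BM fun x => Real.log (C (Real.log x)) := by
    refine ⟨(Real.measurable_log.comp (hmono.measurable.comp
      Real.measurable_log)).aestronglyMeasurable, fun Y => ⟨Real.log (C (Real.log Y)),
      fun x h1 h2 => ?_⟩⟩
    have h3 : 0 ≤ Real.log x := Real.log_nonneg (by linarith [Real.add_one_le_exp 1])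
    have h4 := hpos _ h3
    rw [abs_of_nonneg (Real.log_nonneg h4)]
    exact Real.log_le_log (by linarith) (hmono (Real.log_le_log ((Real.exp_pos 1).trans_le h1) h2))
  refine Pool.Agent.TH270.MS.EQ.BM.congr hb fun x hx => ?_
  rw [numPoints_card hΔ (by linarith [Real.add_one_le_exp 1])]

/-- square means -/
theorem sq_mean_close {e g : ℝ → ℝ} (he : BM e) (hg : BM g)
    (h : Tendsto (fun y => e y - g y) atTop (𝓝 0))
    (hg2 : Tendsto (lmean fun y => g y ^ 2) atTop (𝓝 0)) :
    Tendsto (lmean fun y => e y ^ 2) atTop (𝓝 0) := by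
  have h1 : Tendsto (fun y => (e y - g y) ^ 2) atTop (𝓝 0) := by
    have := h.pow 2
    rwa [zero_pow two_ne_zero] at this
  have h2 := lmean_zero (he.sub hg).sq.li h1
  have h3 := (hg2.const_mul 2).add (h2.const_mul 2)
  rw [mul_zero, add_zero] at h3
  refine squeeze_zero' ?_ ?_ h3
  · filter_upwards [eventually_ge_atTop (Real.exp 1)] with Y hY
    refine div_nonneg ?_ (Real.log_nonneg (by linarith [Real.add_one_le_exp 1]))
    refine intervalIntegral.integral_nonneg hY fun y hy => ?_
    have hy0 : 0 < y := (Real.exp_pos 1).trans_le hy.1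
    positivity
  · filter_upwards [eventually_gt_atTop (Real.exp 1)] with Y hY
    have hl : 0 < Real.log Y := Real.log_pos (by linarith [Real.add_one_le_exp 1])
    have i1 := he.sq.li.div Y hY.le
    have i2 := hg.sq.li.div Y hY.le
    have i3 := (he.sub hg).sq.li.div Y hY.le
    have i3' : IntervalIntegrable (fun y => |(e y - g y) ^ 2| / y) volume (Real.exp 1) Y := by
      have e1 : (fun y => |(e y - g y) ^ 2| / y) = fun y => (e y - g y) ^ 2 / y :=
        funext fun y => by rw [abs_of_nonneg (sq_nonneg (e y - g y))]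
      rw [e1]
      exact i3
    unfold lmean
    rw [← mul_div_assoc, ← mul_div_assoc, ← add_div]
    refine div_le_div_of_nonneg_right ?_ hl.le
    rw [← intervalIntegral.integral_const_mul, ← intervalIntegral.integral_const_mul,
      ← intervalIntegral.integral_add (i2.const_mul 2) (i3'.const_mul 2)]
    refine intervalIntegral.integral_mono_on hY.le i1 ((i2.const_mul 2).add (i3'.const_mul 2))
      fun y hy => ?_
    have hy0 : 0 < y := (Real.exp_pos 1).trans_le hy.1
    rw [abs_of_nonneg (sq_nonneg (e y - g y)), ← mul_div_assoc, ← mul_div_assoc, ← add_div]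
    refine div_le_div_of_nonneg_right ?_ hy0.le
    nlinarith [sq_nonneg (e y - 2 * g y)]

theorem mean_tfae (hΔ : 4 * a ^ 3 + 27 * b ^ 2 ≠ 0) (hF : IsLSeries a b F)
    {M : ℕ} [NeZero M] {f : CuspForm (Gamma0 M : Subgroup (GL (Fin 2) ℝ)) 2}
    (hf : IsNewformOf a b M f) {r : ℕ} {g : Fin r → Points a b} (hg : IsBasis g) {A : ℝ}
    (hA : 0 < A) : List.TFAE [
      Strong F r (A * Reg g / (numTorsion a b : ℝ) ^ 2),
      Tendsto (fun X : ℝ => (∫ x in Real.exp 1..X, |Real.log (product a b x /
        (numPoints a b x : ℝ) ^ 2) - const r Real.eulerMascheroniConstant A| / x) / Real.log X)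
        atTop (𝓝 0),
      Tendsto (fun X : ℝ => (∫ x in Real.exp 1..X, (Real.log (product a b x /
        (numPoints a b x : ℝ) ^ 2) - const r Real.eulerMascheroniConstant A) ^ 2 / x) /
        Real.log X) atTop (𝓝 0)] := by
  set γ : ℝ := Real.eulerMascheroniConstant with hγ
  have hF' : Pool.Agent.W263.BSD.IsLSeries a b F := hF
  have hrs : Tendsto (Pool.Agent.W263.BSD.rsSum a b) atTop (𝓝 0) :=
    (hecke hf).rsSum_tendsto hΔ hf.points
  obtain ⟨C₁, κ', hgr⟩ := Pool.Agent.TH270.MS.EQ.growth_F hΔ hF' (hecke hf) hf.points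
  have hN := points_log hΔ hg
  obtain ⟨hq, hc⟩ := const_eq (c := γ) hΔ hg hA
  set q : ℝ := A * Reg g / (numTorsion a b : ℝ) ^ 2 with hqd
  set c₀ : ℝ := Real.log ((numTorsion a b : ℝ) ^ 2 * V r ^ 2 / Reg g) with hc₀
  set C : ℝ := √2 * Real.exp (r * γ) / q with hC
  have hC0 : 0 < C := by positivity
  have tf := Pool.Agent.TH270.MS.EQ.curve_law hΔ hF' hrs (by norm_num : (0 : ℝ) < 1 / 8) hgr
    (r : ℝ) hC0
  set e : ℝ → ℝ := fun x => Real.log (product a b x / (numPoints a b x : ℝ) ^ 2) - const r γ A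
    with he
  have hprod : ∀ x, product a b x = Pool.Agent.W263.BSD.bsdProduct a b x := fun x => rfl
  have hpos : ∀ x, 0 < (numPoints a b x : ℝ) := fun x => by
    unfold numPoints
    positivity
  have he' : ∀ x, e x = Real.log (Pool.Agent.W263.BSD.bsdProduct a b x) -
      2 * Real.log (numPoints a b x) - const r γ A := by
    intro x
    rw [he]
    simp only
    rw [hprod, Real.log_div (Pool.Agent.W263.BSD.bsdProduct_pos x).ne'
      (pow_pos (hpos x) 2).ne', Real.log_pow]
    norm_num
  have hbe : BM e := by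
    have h1 := ((bm_product a b).sub ((BM.const 2).mul (bm_points hΔ))).sub
      (BM.const (const r γ A))
    refine Pool.Agent.TH270.MS.EQ.BM.congr h1 fun x _ => ?_
    rw [he' x]
  have hbd : BM (dev a b (r : ℝ) C) := bm_dev a b hC0
  have hclose : Tendsto (fun x => e x - dev a b (r : ℝ) C x) atTop (𝓝 0) := by
    have h1 := (tendsto_const_nhds (x := c₀)).sub hN
    rw [sub_self] at h1
    refine h1.congr' ?_
    filter_upwards [eventually_ge_atTop (Real.exp 1)] with x hx
    rw [he' x, dev_eq hC0 hx, hc]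
    ring
  have hclose' : Tendsto (fun x => dev a b (r : ℝ) C x - e x) atTop (𝓝 0) := by
    have := hclose.neg
    rw [neg_zero] at this
    refine this.congr fun x => ?_
    ring
  have h0 : Strong F r q ↔ ((∀ s : ℂ, 1 < s.re → F s ≠ 0) ∧ ∃ m : ℕ, (r : ℝ) = m ∧
      analyticOrderAt F 1 = m ∧ iteratedDeriv m F 1 / (m.factorial : ℂ) =
        ((√2 * Real.exp (m * Real.eulerMascheroniConstant) / C : ℝ) : ℂ)) := by
    have e1 : √2 * Real.exp (r * γ) / C = q := by
      rw [hC]
      have : √2 * Real.exp (r * γ) ≠ 0 := by positivity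
      field_simp
    constructor
    · rintro ⟨h1, h2, h3⟩
      refine ⟨h3, r, rfl, h1, ?_⟩
      rw [h2, e1]
    · rintro ⟨h3, m, h4, h1, h2⟩
      have h5 : r = m := by exact_mod_cast h4
      subst h5
      rw [e1] at h2
      exact ⟨h1, h2, h3⟩
  have t12 := tf.out 0 1
  have t13 := tf.out 0 2
  tfae_have 1 ↔ 2 := by
    rw [h0]
    refine t12.trans ?_
    exact lmean_iff hbd.li hbe.li hclose'
  tfae_have 1 → 3 := by
    intro h1
    have h2 := t13.1 (h0.1 h1)
    exact sq_mean_close hbe hbd hclose h2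
  tfae_have 3 → 2 := fun h1 => lmean_of_sq hbe.li hbe.sq.li h1
  tfae_finish

/-- **The strong conjecture of Birch and Swinnerton-Dyer without regulator and torsion.** -/
theorem result (a b : ℤ) (hΔ : 4 * a ^ 3 + 27 * b ^ 2 ≠ 0) (F : ℂ → ℂ) (hF : IsLSeries a b F)
    (M : ℕ) [NeZero M] (f : CuspForm (Gamma0 M : Subgroup (GL (Fin 2) ℝ)) 2)
    (hf : IsNewformOf a b M f) :
    (∀ P : Points a b, Tendsto (fun n : ℕ => height ((2 ^ n : ℕ) • P) / 4 ^ n) atTop
      (𝓝 (canHeight P))) ∧
    (∃ (r : ℕ) (g : Fin r → Points a b), IsBasis g) ∧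
    ∀ (r : ℕ) (g : Fin r → Points a b), IsBasis g → rank a b = r ∧ 0 < Reg g ∧
      ∀ A : ℝ, 0 < A →
      -- the original product in mean
      List.TFAE [
        analyticOrderAt F 1 = r ∧ iteratedDeriv r F 1 / (r.factorial : ℂ) =
          ((A * Reg g / (numTorsion a b : ℝ) ^ 2 : ℝ) : ℂ) ∧ NoZeros F,
        Tendsto (fun X : ℝ => (∫ x in Real.exp 1..X, |Real.log (product a b x /
          (numPoints a b x : ℝ) ^ 2) - const r Real.eulerMascheroniConstant A| / x) / Real.log X)
          atTop (𝓝 0),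
        Tendsto (fun X : ℝ => (∫ x in Real.exp 1..X, (Real.log (product a b x /
          (numPoints a b x : ℝ) ^ 2) - const r Real.eulerMascheroniConstant A) ^ 2 / x) /
          Real.log X) atTop (𝓝 0)] ∧
      -- the regular weights
      ∀ (w : ℝ → ℝ) (β c : ℝ), Weight w β → Regular w β c →
        ((analyticOrderAt F 1 = r ∧ iteratedDeriv r F 1 / (r.factorial : ℂ) =
            ((A * Reg g / (numTorsion a b : ℝ) ^ 2 : ℝ) : ℂ) ∧ NoZeros F) ↔
          Tendsto (fun X : ℝ => S a b w β X - 2 * Real.log (numPoints a b X)) atTop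
            (𝓝 (const r c A))) ∧
        -- one-sided
        ((∀ u, 0 ≤ w u) →
          ((NoZeros F ∧ (analyticOrderAt F 1 < r ∨ (analyticOrderAt F 1 = r ∧ ∃ l : ℝ,
            iteratedDeriv r F 1 / (r.factorial : ℂ) = (l : ℂ) ∧
              A * Reg g / (numTorsion a b : ℝ) ^ 2 ≤ l))) ↔
          ∀ ε : ℝ, 0 < ε → ∀ᶠ X : ℝ in atTop,
            S a b w β X ≤ 2 * Real.log (numPoints a b X) + const r c A + ε)) := by
  obtain ⟨h1, h2, -, h3⟩ := neron' hΔ
  refine ⟨h1, h2, fun r g hg => ?_⟩
  obtain ⟨h4, h5, -⟩ := h3 r g hg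
  refine ⟨h4, h5, fun A hA => ⟨mean_tfae hΔ hF hf hg hA, fun w β c hw hreg =>
    ⟨strong_iff hΔ hF hf hw hreg hg hA, fun hw0 => one_sided_iff hΔ hF hf hw hreg hw0 hg hA⟩⟩⟩

end Pool.Agent.Results.MP_4a9ea6_nt.RegulatorFreeProducts
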