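import Pool.Agent.Results.MP_4a9ea6_nt.RegulatorFreeProducts
import Pool.Agent.Results.MP_696deb_nt.SectorialOneSided

/-!
# The strong conjecture of Birch and Swinnerton-Dyer without regulator and torsion: sectors and real zeros

Let `C : y² = x³ + a x + b` be an elliptic curve over `ℚ`, `a, b ∈ ℤ`, let `F` be the entire continuation of its
incomplete `L`-series, `N_p` the number of the affine points modulo `p ∤ 2Δ`, `R(X)` the number of the RATIONAL points of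
height `≤ X`, `r` the rank of `C(ℚ)`, `t` the order of its torsion subgroup, `Reg` the regulator (defined with the
canonical height `lim 4^{-n} h(x(2^n P))`) and `V_r = π^(r/2)/Γ(r/2 + 1)`. For `1 < ρ < ρ'` let

`S_ρ(X) = ∑ w_ρ(log p / log X) log ((N_p + 1)/p)`, `p ≤ exp ((log X)^ρ')`, `p ∤ 2Δ`,

`w_ρ(u) = (2π)⁻¹ ∫ Re (exp (z - u z^(1/ρ)) / z) dt`, `z = 1 + it`, and let `V_ρ = {|arg (s - 1)| < π/(2ρ)}` be the sector with the
vertex `1`. For every curve, every real `A > 0` and all `1 < ρ < ρ'` it is shown: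

* `ord_{s=1} F = r`, `F^(r)(1)/r! = A Reg/t²` and `F` has no zeros in the sector, if and only if
  `S_ρ(X) - 2 log R(X) → log (√2 e^(rγ/ρ)/(A V_r²))`;
* ONE-SIDED: `limsup (S_ρ(X) - 2 log R(X)) ≤ log (√2 e^(rγ/ρ)/(A V_r²))` if and only if `F` has no zeros in the sector
  and either `ord_{s=1} F < r`, or `ord_{s=1} F = r` and `F^(r)(1)/r! ≥ A Reg/t²`.

In particular:

* `ord_{s=1} F = r`, `F^(r)(1)/r! = A Reg/t²` and `F` has no REAL zeros `> 1`, if and only if the limit formula holds for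
  some `ρ > 1` (then it holds for all large `ρ`);
* `ord_{s=1} F = r`, `F^(r)(1)/r! = A Reg/t²` and `F` has no zeros with `Re s > 1`, if and only if the limit formula holds
  for `ρ` arbitrarily close to `1` (then for all `ρ > 1`);
* and similarly for the inequality `≥` and the one-sided condition.

So for a curve `C` whose `L`-function has no real zeros `> 1` (this can be verified numerically for a given curve) the
strong conjecture of Birch and Swinnerton-Dyer, `A = Ω |Sha| ∏ c_p ∏_{p ∣ 2Δ} L_p(1)⁻¹`, is equivalent to a limit formula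
(or to two one-sided estimates) for finite sums which contain only the numbers of the points modulo `p` and the numbers of
the rational points of bounded height: no regulator, no torsion, and no Riemann hypothesis.

Proof. The one-sided Tauberian theorem is in `Pool.Agent.X287.Sect*` (see `MP_696deb_nt.SectorialOneSided`), the limit for
zero-free sectors in `Pool.Agent.TH942.SL` and Néron's asymptotic formula for `R(X)` in `Pool.Agent.TH942.Ner`.
-/

set_option autoImplicit false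

namespace Pool.Agent.Results.MP_4a9ea6_nt.RegulatorFreeSectors

open Filter Topology Classical MeasureTheory Set CongruenceSubgroup UpperHalfPlane
open scoped MatrixGroups
open Pool.Agent.Results.MP_696deb_nt.SectorialOneSided (N Good IsLSeries rank numPoints wt S Sector
  ZeroFree coef IsNewformOf hecke loglog_atTop up limsup_iff half_plane zeroFree_mono)
open Pool.Agent.Results.MP_4a9ea6_nt.RegulatorFreeProducts (Points height canHeight pairing IsBasis Reg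
  numTorsion V const neron' points_log V_pos const_eq)

variable {a b : ℤ} {F : ℂ → ℂ}

/-- `2 log R(X) = r log log X + log (t² V_r² / Reg) + o(1)` -/
theorem points_log' (hΔ : 4 * a ^ 3 + 27 * b ^ 2 ≠ 0) {r : ℕ} {g : Fin r → Points a b}
    (hg : IsBasis g) : Tendsto (fun X : ℝ => 2 * Real.log (numPoints a b X) -
      r * Real.log (Real.log X)) atTop
      (𝓝 (Real.log ((numTorsion a b : ℝ) ^ 2 * V r ^ 2 / Reg g))) := points_log hΔ hg

theorem negligible {g : ℝ → ℝ} {κ ε : ℝ} (hg : Tendsto g atTop (𝓝 κ)) (hε : 0 < ε) :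
    ∀ᶠ X : ℝ in atTop, |g X| ≤ ε * Real.log (Real.log X) := by
  have h1 : ∀ᶠ X in atTop, |g X| < |κ| + 1 := hg.abs.eventually (gt_mem_nhds (lt_add_one _))
  have h2 := (loglog_atTop.const_mul_atTop hε).eventually_ge_atTop (|κ| + 1)
  filter_upwards [h1, h2] with X e1 e2
  linarith

section

variable {M : ℕ} [NeZero M] {f : CuspForm (Gamma0 M : Subgroup (GL (Fin 2) ℝ)) 2}
  {ρ ρ' A : ℝ} {r : ℕ} {g : Fin r → Points a b}

/-- order `r`, leading coefficient `q` -/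
def Lead (F : ℂ → ℂ) (r : ℕ) (q : ℝ) : Prop :=
  analyticOrderAt F 1 = r ∧ iteratedDeriv r F 1 / (r.factorial : ℂ) = (q : ℂ)

/-- order `< r`, or order `r` and leading coefficient at least `q` -/
def LeadGe (F : ℂ → ℂ) (r : ℕ) (q : ℝ) : Prop :=
  analyticOrderAt F 1 < r ∨ (analyticOrderAt F 1 = r ∧ ∃ l : ℝ,
    iteratedDeriv r F 1 / (r.factorial : ℂ) = (l : ℂ) ∧ q ≤ l)

/-- the limit in a zero-free sector -/
theorem sect_lim (hΔ : 4 * a ^ 3 + 27 * b ^ 2 ≠ 0) (hF : IsLSeries a b F)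
    (hf : IsNewformOf a b M f) (hρ : 1 < ρ) (hρ' : ρ < ρ') {m : ℕ}
    (hm : analyticOrderAt F 1 = m) (hz : ZeroFree F ρ) :
    ∃ κ : ℝ, Tendsto (fun X : ℝ => S a b ρ ρ' X - m * Real.log (Real.log X)) atTop (𝓝 κ) ∧
      (Real.exp κ : ℂ) * (iteratedDeriv m F 1 / (m.factorial : ℂ)) =
        ((√2 * Real.exp (m * (Real.eulerMascheroniConstant / ρ)) : ℝ) : ℂ) := by
  obtain ⟨κ, h1, h2⟩ := Pool.Agent.TH942.SL.Sr_lim (a := a) (b := b) hΔ
    ((hecke hf).rsSum_tendsto hΔ hf.points) hF hρ hρ' hm fun s h1 h2 => hz s ⟨h1, h2⟩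
  refine ⟨κ, h1, ?_⟩
  rw [h2]
  congr 3
  rw [div_eq_mul_inv]
  ring

theorem strong_iff (hΔ : 4 * a ^ 3 + 27 * b ^ 2 ≠ 0) (hF : IsLSeries a b F)
    (hf : IsNewformOf a b M f) (hρ : 1 < ρ) (hρ' : ρ < ρ') (hg : IsBasis g)
    (hA : 0 < A) : (Lead F r (A * Reg g / (numTorsion a b : ℝ) ^ 2) ∧ ZeroFree F ρ) ↔
      Tendsto (fun X : ℝ => S a b ρ ρ' X - 2 * Real.log (numPoints a b X)) atTop
        (𝓝 (const r (Real.eulerMascheroniConstant / ρ) A)) := by
  obtain ⟨m, hm⟩ : ∃ m : ℕ, analyticOrderAt F 1 = m :=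
    Pool.Agent.W189.ML.order_finite_all (a := a) (b := b) hF 1
  set c : ℝ := Real.eulerMascheroniConstant / ρ with hcd
  have hN := points_log' hΔ hg
  obtain ⟨hq, hc⟩ := const_eq (c := c) hΔ hg hA
  set q : ℝ := A * Reg g / (numTorsion a b : ℝ) ^ 2 with hqd
  set c₀ : ℝ := Real.log ((numTorsion a b : ℝ) ^ 2 * V r ^ 2 / Reg g) with hc₀
  have h2 : 0 < √(2 : ℝ) * Real.exp (r * c) := by positivity
  rw [hc]
  constructor
  · rintro ⟨⟨h3, h4⟩, hz⟩
    have hmr : m = r := by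
      rw [hm] at h3
      exact_mod_cast h3
    subst hmr
    obtain ⟨κ, h5, h6⟩ := sect_lim hΔ hF hf hρ hρ' hm hz
    rw [h4, ← Complex.ofReal_mul] at h6
    have h7 := Complex.ofReal_injective h6
    have h8 : κ = Real.log (√2 * Real.exp (m * c) / q) := by
      rw [← h7, mul_div_assoc, div_self hq.ne', mul_one, Real.log_exp]
    rw [← h8]
    refine (h5.sub hN).congr fun X => ?_
    ring
  · intro h3
    -- the order of growth
    have h4 : ∀ ε : ℝ, 0 < ε → ∀ᶠ X : ℝ in atTop,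
        |S a b ρ ρ' X - r * Real.log (Real.log X)| ≤ ε * Real.log (Real.log X) := by
      intro ε hε
      filter_upwards [negligible (h3.add hN) hε] with X e1
      have e2 : S a b ρ ρ' X - r * Real.log (Real.log X) = S a b ρ ρ' X -
        2 * Real.log (numPoints a b X) + (2 * Real.log (numPoints a b X) -
          r * Real.log (Real.log X)) := by ring
      rw [e2]
      exact e1
    obtain ⟨hz, h5⟩ := (limsup_iff hF hρ hρ' hm r).1 fun ε hε => by
      filter_upwards [h4 ε hε] with X e1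
      have := (abs_le.1 e1).2
      linarith
    obtain ⟨κ, h6, h7⟩ := sect_lim hΔ hF hf hρ hρ' hm hz
    have hmr : m = r := by
      by_contra hne
      have h8 : m < r := lt_of_le_of_ne (by exact_mod_cast h5) hne
      have h9 : (m : ℝ) + 1 ≤ r := by exact_mod_cast h8
      obtain ⟨X, e1, e2, e3⟩ := ((h4 (1 / 4) (by norm_num)).and
        ((negligible h6 (ε := 1 / 4) (by norm_num)).and
          (loglog_atTop.eventually_gt_atTop 0))).exists
      have e4 := (abs_le.1 e1).1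
      have e5 := (abs_le.1 e2).2
      have e6 := mul_le_mul_of_nonneg_right h9 e3.le
      linarith
    subst hmr
    refine ⟨⟨hm, ?_⟩, hz⟩
    have h8 : κ = Real.log (√2 * Real.exp (m * c) / q) := by
      have h9 := tendsto_nhds_unique ((h6.sub hN).congr fun X => by ring) h3
      linarith
    rw [h8, Real.exp_log (by positivity)] at h7
    have h9 : ((√2 * Real.exp (m * c) / q : ℝ) : ℂ) ≠ 0 := by
      exact_mod_cast (by positivity : √2 * Real.exp (m * c) / q ≠ 0)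
    apply mul_left_cancel₀ h9
    rw [h7, ← hcd, ← Complex.ofReal_mul]
    congr 1
    field_simp

/-- **the one-sided form** -/
theorem one_sided_iff (hΔ : 4 * a ^ 3 + 27 * b ^ 2 ≠ 0) (hF : IsLSeries a b F)
    (hf : IsNewformOf a b M f) (hρ : 1 < ρ) (hρ' : ρ < ρ')
    (hg : IsBasis g) (hA : 0 < A) :
    (LeadGe F r (A * Reg g / (numTorsion a b : ℝ) ^ 2) ∧ ZeroFree F ρ) ↔
      ∀ ε : ℝ, 0 < ε → ∀ᶠ X : ℝ in atTop, S a b ρ ρ' X ≤
        2 * Real.log (numPoints a b X) + const r (Real.eulerMascheroniConstant / ρ) A + ε := by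
  obtain ⟨m, hm⟩ : ∃ m : ℕ, analyticOrderAt F 1 = m :=
    Pool.Agent.W189.ML.order_finite_all (a := a) (b := b) hF 1
  set c : ℝ := Real.eulerMascheroniConstant / ρ with hcd
  have hN := points_log' hΔ hg
  obtain ⟨hq, hc⟩ := const_eq (c := c) hΔ hg hA
  set q : ℝ := A * Reg g / (numTorsion a b : ℝ) ^ 2 with hqd
  set c₀ : ℝ := Real.log ((numTorsion a b : ℝ) ^ 2 * V r ^ 2 / Reg g) with hc₀
  have h2 : 0 < √(2 : ℝ) * Real.exp (r * c) := by positivity
  constructor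
  · rintro ⟨h3, hz⟩ ε hε
    obtain ⟨κ, h5, h6⟩ := sect_lim hΔ hF hf hρ hρ' hm hz
    rcases h3 with h3 | ⟨h3, l, h4, h7⟩
    · -- smaller order
      have hmr : m < r := by
        rw [hm] at h3
        exact_mod_cast h3
      have hmr' : (m : ℝ) + 1 ≤ r := by exact_mod_cast hmr
      have h8 := (h5.sub hN).eventually (gt_mem_nhds (lt_add_one _))
      filter_upwards [h8, loglog_atTop.eventually_ge_atTop
        (κ - c₀ + 1 - const r c A), loglog_atTop.eventually_ge_atTop 0] with X e1 e2 e3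
      have e4 := mul_le_mul_of_nonneg_right hmr' e3
      linarith
    · have hmr : m = r := by
        rw [hm] at h3
        exact_mod_cast h3
      subst hmr
      rw [h4, ← Complex.ofReal_mul] at h6
      have h9 := Complex.ofReal_injective h6
      have h8 : κ ≤ Real.log (√2 * Real.exp (m * c) / q) := by
        rw [Real.le_log_iff_exp_le (by positivity), le_div_iff₀ hq, ← h9]
        exact mul_le_mul_of_nonneg_left h7 (Real.exp_pos κ).le
      have h10 : κ - c₀ < const m c A + ε := by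
        rw [hc]
        linarith
      filter_upwards [(h5.sub hN).eventually (gt_mem_nhds h10)] with X e1
      linarith
  · intro h3
    have h4 : ∀ ε : ℝ, 0 < ε → ∀ᶠ X : ℝ in atTop,
        S a b ρ ρ' X ≤ ((r : ℝ) + ε) * Real.log (Real.log X) := by
      intro ε hε
      have h5 : Tendsto (fun X : ℝ => (2 * Real.log (numPoints a b X) -
        r * Real.log (Real.log X)) + (const r c A + 1)) atTop (𝓝 (c₀ + (const r c A + 1))) :=
        hN.add_const _
      filter_upwards [h3 1 one_pos, negligible h5 hε] with X e1 e2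
      have e3 := (abs_le.1 e2).2
      linarith
    obtain ⟨hz, h5⟩ := (limsup_iff hF hρ hρ' hm r).1 h4
    refine ⟨?_, hz⟩
    have h6 : m ≤ r := by exact_mod_cast h5
    rcases h6.lt_or_eq with h7 | h7
    · left
      rw [hm]
      exact_mod_cast h7
    · right
      subst h7
      refine ⟨hm, ?_⟩
      obtain ⟨κ, h8, h9⟩ := sect_lim hΔ hF hf hρ hρ' hm hz
      have h10 : κ - c₀ ≤ const m c A := by
        refine le_of_forall_pos_le_add fun ε hε => ?_
        refine le_of_tendsto (h8.sub hN) ?_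
        filter_upwards [h3 ε hε] with X e1
        linarith
      refine ⟨√2 * Real.exp (m * c) / Real.exp κ, ?_, ?_⟩
      · have e1 : ((Real.exp κ : ℝ) : ℂ) ≠ 0 := by exact_mod_cast (Real.exp_pos κ).ne'
        rw [Complex.ofReal_div, ← h9, mul_div_cancel_left₀ _ e1]
      · rw [hc] at h10
        have h11 : κ ≤ Real.log (√2 * Real.exp (m * c) / q) := by linarith
        rw [Real.le_log_iff_exp_le (by positivity), le_div_iff₀ hq] at h11
        rw [le_div_iff₀ (Real.exp_pos κ)]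
        linarith

end

/-- **The strong conjecture of Birch and Swinnerton-Dyer without regulator and torsion, in sectors.** -/
theorem result (a b : ℤ) (hΔ : 4 * a ^ 3 + 27 * b ^ 2 ≠ 0) (F : ℂ → ℂ) (hF : IsLSeries a b F)
    (M : ℕ) [NeZero M] (f : CuspForm (Gamma0 M : Subgroup (GL (Fin 2) ℝ)) 2)
    (hf : IsNewformOf a b M f) :
    (∀ P : Points a b, Tendsto (fun n : ℕ => height ((2 ^ n : ℕ) • P) / 4 ^ n) atTop
      (𝓝 (canHeight P))) ∧
    (∃ (r : ℕ) (g : Fin r → Points a b), IsBasis g) ∧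
    ∀ (r : ℕ) (g : Fin r → Points a b), IsBasis g → rank a b = r ∧ 0 < Reg g ∧
      ∀ A : ℝ, 0 < A →
      -- every sector
      (∀ ρ ρ' : ℝ, 1 < ρ → ρ < ρ' →
        ((Lead F r (A * Reg g / (numTorsion a b : ℝ) ^ 2) ∧ ZeroFree F ρ) ↔
          Tendsto (fun X : ℝ => S a b ρ ρ' X - 2 * Real.log (numPoints a b X)) atTop
            (𝓝 (const r (Real.eulerMascheroniConstant / ρ) A))) ∧
        ((LeadGe F r (A * Reg g / (numTorsion a b : ℝ) ^ 2) ∧ ZeroFree F ρ) ↔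
          ∀ ε : ℝ, 0 < ε → ∀ᶠ X : ℝ in atTop, S a b ρ ρ' X ≤
            2 * Real.log (numPoints a b X) + const r (Real.eulerMascheroniConstant / ρ) A + ε)) ∧
      -- narrow sectors: real zeros
      ((Lead F r (A * Reg g / (numTorsion a b : ℝ) ^ 2) ∧ ∀ x : ℝ, 1 < x → F x ≠ 0) ↔
        ∃ ρ ρ' : ℝ, 1 < ρ ∧ ρ < ρ' ∧
          Tendsto (fun X : ℝ => S a b ρ ρ' X - 2 * Real.log (numPoints a b X)) atTop
            (𝓝 (const r (Real.eulerMascheroniConstant / ρ) A))) ∧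
      ((LeadGe F r (A * Reg g / (numTorsion a b : ℝ) ^ 2) ∧ ∀ x : ℝ, 1 < x → F x ≠ 0) ↔
        ∃ ρ ρ' : ℝ, 1 < ρ ∧ ρ < ρ' ∧ ∀ ε : ℝ, 0 < ε → ∀ᶠ X : ℝ in atTop, S a b ρ ρ' X ≤
            2 * Real.log (numPoints a b X) + const r (Real.eulerMascheroniConstant / ρ) A + ε) ∧
      -- wide sectors: zeros in the half plane
      ((Lead F r (A * Reg g / (numTorsion a b : ℝ) ^ 2) ∧ ∀ s : ℂ, 1 < s.re → F s ≠ 0) ↔
        ∀ ρ₀ : ℝ, 1 < ρ₀ → ∃ ρ ρ' : ℝ, 1 < ρ ∧ ρ < ρ₀ ∧ ρ < ρ' ∧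
          Tendsto (fun X : ℝ => S a b ρ ρ' X - 2 * Real.log (numPoints a b X)) atTop
            (𝓝 (const r (Real.eulerMascheroniConstant / ρ) A))) ∧
      ((LeadGe F r (A * Reg g / (numTorsion a b : ℝ) ^ 2) ∧ ∀ s : ℂ, 1 < s.re → F s ≠ 0) ↔
        ∀ ρ₀ : ℝ, 1 < ρ₀ → ∃ ρ ρ' : ℝ, 1 < ρ ∧ ρ < ρ₀ ∧ ρ < ρ' ∧
          ∀ ε : ℝ, 0 < ε → ∀ᶠ X : ℝ in atTop, S a b ρ ρ' X ≤
            2 * Real.log (numPoints a b X) + const r (Real.eulerMascheroniConstant / ρ) A + ε) := by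
  obtain ⟨h1, h2, -, h3⟩ := neron' (a := a) (b := b) hΔ
  obtain ⟨m, hm⟩ : ∃ m : ℕ, analyticOrderAt F 1 = m :=
    Pool.Agent.W189.ML.order_finite_all (a := a) (b := b) hF 1
  have hnarrow : (∀ x : ℝ, 1 < x → F x ≠ 0) ↔ ∃ ρ : ℝ, 1 < ρ ∧ ZeroFree F ρ := by
    constructor
    · intro h
      obtain ⟨ρ, h1, h2⟩ := Pool.Agent.X287.Sect.exists_sector (a := a) (b := b) hF hm h
      exact ⟨ρ, h1, fun s hs => h2 s hs.1 hs.2⟩
    · rintro ⟨ρ, h1, h2⟩
      exact Pool.Agent.X287.Sect.no_real_of_sector h1 fun s h3 h4 => h2 s ⟨h3, h4⟩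
  have hall : (∀ s : ℂ, 1 < s.re → F s ≠ 0) ↔
      ∀ ρ₀ : ℝ, 1 < ρ₀ → ∃ ρ : ℝ, 1 < ρ ∧ ρ < ρ₀ ∧ ZeroFree F ρ := by
    rw [half_plane]
    constructor
    · intro h ρ₀ h0
      exact ⟨(1 + ρ₀) / 2, by linarith, by linarith, h _ (by linarith)⟩
    · intro h ρ hρ
      obtain ⟨ρ₁, h1, h2, h3⟩ := h ρ hρ
      exact zeroFree_mono (by linarith) h2.le h3
  refine ⟨h1, h2, fun r g hg => ?_⟩
  obtain ⟨h4, h5, -⟩ := h3 r g hg
  refine ⟨h4, h5, fun A hA => ?_⟩
  have hE := fun (ρ ρ' : ℝ) (hρ : 1 < ρ) (hρ' : ρ < ρ') => strong_iff hΔ hF hf hρ hρ' hg hA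
  have hI := fun (ρ ρ' : ℝ) (hρ : 1 < ρ) (hρ' : ρ < ρ') => one_sided_iff hΔ hF hf hρ hρ' hg hA
  refine ⟨fun ρ ρ' hρ hρ' => ⟨hE ρ ρ' hρ hρ', hI ρ ρ' hρ hρ'⟩, ?_, ?_, ?_, ?_⟩
  · rw [hnarrow]
    constructor
    · rintro ⟨h1, ρ, hρ, hz⟩
      exact ⟨ρ, ρ + 1, hρ, by linarith, (hE ρ (ρ + 1) hρ (by linarith)).1 ⟨h1, hz⟩⟩
    · rintro ⟨ρ, ρ', hρ, hρ', h⟩
      obtain ⟨h1, h2⟩ := (hE ρ ρ' hρ hρ').2 h
      exact ⟨h1, ρ, hρ, h2⟩
  · rw [hnarrow]
    constructor
    · rintro ⟨h1, ρ, hρ, hz⟩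
      exact ⟨ρ, ρ + 1, hρ, by linarith, (hI ρ (ρ + 1) hρ (by linarith)).1 ⟨h1, hz⟩⟩
    · rintro ⟨ρ, ρ', hρ, hρ', h⟩
      obtain ⟨h1, h2⟩ := (hI ρ ρ' hρ hρ').2 h
      exact ⟨h1, ρ, hρ, h2⟩
  · rw [hall]
    constructor
    · rintro ⟨h1, h⟩ ρ₀ h0
      obtain ⟨ρ, hρ, h2, hz⟩ := h ρ₀ h0
      exact ⟨ρ, ρ + 1, hρ, h2, by linarith, (hE ρ (ρ + 1) hρ (by linarith)).1 ⟨h1, hz⟩⟩
    · intro h
      refine ⟨?_, fun ρ₀ h0 => ?_⟩
      · obtain ⟨ρ, ρ', hρ, -, hρ', hB⟩ := h 2 (by norm_num)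
        exact ((hE ρ ρ' hρ hρ').2 hB).1
      · obtain ⟨ρ, ρ', hρ, h2, hρ', hB⟩ := h ρ₀ h0
        exact ⟨ρ, hρ, h2, ((hE ρ ρ' hρ hρ').2 hB).2⟩
  · rw [hall]
    constructor
    · rintro ⟨h1, h⟩ ρ₀ h0
      obtain ⟨ρ, hρ, h2, hz⟩ := h ρ₀ h0
      exact ⟨ρ, ρ + 1, hρ, h2, by linarith, (hI ρ (ρ + 1) hρ (by linarith)).1 ⟨h1, hz⟩⟩
    · intro h
      refine ⟨?_, fun ρ₀ h0 => ?_⟩
      · obtain ⟨ρ, ρ', hρ, -, hρ', hB⟩ := h 2 (by norm_num)
        exact ((hI ρ ρ' hρ hρ').2 hB).1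
      · obtain ⟨ρ, ρ', hρ, h2, hρ', hB⟩ := h ρ₀ h0
        exact ⟨ρ, hρ, h2, ((hI ρ ρ' hρ hρ').2 hB).2⟩

end Pool.Agent.Results.MP_4a9ea6_nt.RegulatorFreeSectors
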